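import Pool.Agent.Helper64.PQ.Goals

set_option autoImplicit false

open Topology Filter Set Metric

namespace Pool.Agent.Helper64.PQ

section
variable {X : Type} {t : ℕ} {d : X → X → X → ℕ} {E : X → X → X → Prop} {D : X → X → X → ℕ}

/-- From `E x x' z` for `x'` between `y` and `z` follows `E x' x y`. -/
lemma a3_fwd (hE : Exact t d E D) {y z x x' : X} (hx : x ∈ HH t D y z)
    (hx' : x' ∈ HH t D y z) (hne : x ≠ x') (h : E x x' z) : E x' x y := by
  obtain ⟨h1, h2, h3⟩ := hx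
  obtain ⟨h1', h2', h3'⟩ := hx'
  have e := hE.dcongr x x' z y (Ne.symm hne) (Ne.symm h2) (Ne.symm h1) h
  rw [hE.dsymm x z y (Ne.symm h2) (Ne.symm h1)] at e
  have := hE.strong x x' y hne h1' h1 (by rw [e]; omega)
  exact this

lemma a3_bwd (hE : Exact t d E D) {y z x x' : X} (hx : x ∈ HH t D y z)
    (hx' : x' ∈ HH t D y z) (hne : x ≠ x') (h : E x' x y) : E x x' z := by
  obtain ⟨h1, h2, h3⟩ := hx
  obtain ⟨h1', h2', h3'⟩ := hx'
  have e := hE.dcongr x' x y z hne (Ne.symm h1') (Ne.symm h2') h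
  exact hE.strong x' x z (Ne.symm hne) h2 h2' (by rw [e]; omega)

lemma a3_tot (hE : Exact t d E D) {y z x x' : X} (hx : x ∈ HH t D y z)
    (hx' : x' ∈ HH t D y z) (hne : x ≠ x') : E x x' z ∨ E x' x z := by
  obtain ⟨h1, h2, h3⟩ := hx
  have h1' := hx'.1
  have h2' := hx'.2.1
  have htri := hE.dtri x y x' z (Ne.symm h1) (Ne.symm hne) (Ne.symm h2)
  by_cases hc : 8 * t < D x y x'
  · left
    rw [hE.dsymm x y x' (Ne.symm h1) (Ne.symm hne)] at hc
    exact a3_bwd hE ⟨h1, h2, h3⟩ hx' hne (hE.strong x x' y hne h1' h1 hc)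
  · right
    exact hE.strong x x' z hne h2' h2 (by omega)

lemma a3_not (hE : Exact t d E D) {y z x x' : X} (hx : x ∈ HH t D y z)
    (hx' : x' ∈ HH t D y z) (hne : x ≠ x') (h : E x x' z) : ¬ E x' x z := by
  intro h'
  have h5 := a3_fwd hE hx hx' hne h
  have h6 := hE.etrans x' y x z (hE.esymm _ _ _ h5) h'
  have h7 := hE.near x' y z (Ne.symm hx'.1) (Ne.symm hx'.2.1) h6
  have := hx'.2.2
  omega

end

theorem goalA3 : GoalA3 := by
  intro X t d E D hd hE y z
  refine ⟨?_, ?_, ?_, ?_, ?_, ?_⟩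
  · apply (hd.fin y z).subset
    rintro x ⟨h1, h2, h3⟩
    refine ⟨h1, h2, ?_⟩
    have := (hE.le x y z (Ne.symm h1) (Ne.symm h2)).2
    have := hd.pos
    omega
  · ext x
    constructor
    · rintro ⟨h1, h2, h3⟩
      exact ⟨h2, h1, by rwa [hE.dsymm x y z (Ne.symm h2) (Ne.symm h1)]⟩
    · rintro ⟨h1, h2, h3⟩
      exact ⟨h2, h1, by rwa [hE.dsymm x z y (Ne.symm h2) (Ne.symm h1)]⟩
  · intro x hx x' hx' hne
    exact a3_tot hE hx hx' hne
  · intro x hx x' hx' hne h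
    exact a3_not hE hx hx' hne h
  · intro x hx x' hx' hne
    exact ⟨a3_fwd hE hx hx' hne, a3_bwd hE hx hx' hne⟩
  · intro x hx x' hx' x'' hx'' h01 h12 h02 h h'
    by_contra hcon
    have h3 : E x'' x z := (a3_tot hE hx hx'' h02).resolve_left hcon
    have h4 : E x x'' y := a3_fwd hE hx'' hx (Ne.symm h02) h3
    have e1 := hE.dcongr x x'' y x' (Ne.symm h02) (Ne.symm hx.1) (Ne.symm h01) h4
    have e2 := hE.dcongr x x' z y (Ne.symm h01) (Ne.symm hx.2.1) (Ne.symm hx.1) h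
    rw [hE.dsymm x x' y (Ne.symm h01) (Ne.symm hx.1),
      hE.dsymm x z y (Ne.symm hx.2.1) (Ne.symm hx.1)] at e2
    have h5 : 8 * t < D x x' x'' := by
      rw [hE.dsymm x x' x'' (Ne.symm h01) (Ne.symm h02), e1, e2]
      have := hx.2.2
      omega
    have h6 : E x' x x'' := hE.strong x x' x'' h01 h12 h02 h5
    have h7 := a3_fwd hE hx hx' h01 h
    have h8 : E x' x z := hE.etrans _ _ _ _ h6 h'
    exact a3_not hE hx hx' h01 h h8

end Pool.Agent.Helper64.PQ
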