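import Pool.Agent.Helper64.PQ.Goals

set_option autoImplicit false

open Topology Filter Set Metric UpperHalfPlane
open scoped MatrixGroups

namespace Pool.Agent.Helper64.PQ

theorem goalA (h2 : GoalA2) (h5 : GoalA5) (h7 : GoalA7) : GoalA := by
  intro X t d hd o x y hxy Q _ s hs
  obtain ⟨E, D, hED⟩ := h2 X t d hd
  obtain ⟨N, W, hW1, hW2, hW3⟩ := h7 X t d hd o x y hxy
  classical
  let l : ℕ → ℕ → Q := fun i m =>
    if m ∈ W i true then s true else if m ∈ W i false then s false else 1
  have l1 : ∀ i m, l i m ≠ 1 → ∃ b, m ∈ W i b := by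
    intro i m h
    by_contra hc
    push Not at hc
    apply h
    simp only [l]
    rw [if_neg (hc true), if_neg (hc false)]
  have l2 : ∀ i b m, m ∈ W i b → l i m = s b := by
    intro i b m hm
    simp only [l]
    rcases b with _ | _
    · have h : m ∉ W i true := by
        intro h
        have := (hW2 i true i false m h hm).2
        cases this
      rw [if_neg h, if_pos hm]
    · rw [if_pos hm]
  obtain ⟨φ, p1, p2, p3⟩ := h5 X t d E D hd hED Q l (by
      intro i m
      simp only [l]
      split_ifs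
      · exact hs true
      · exact hs false
      · exact one_mul 1) (by
      intro i m h
      obtain ⟨b, hb⟩ := l1 i m h
      exact hW1 i b m hb) (by
      intro i j m h h'
      obtain ⟨b, hb⟩ := l1 i m h
      obtain ⟨c, hc⟩ := l1 j m h'
      exact (hW2 i b j c m hb hc).1)
  refine ⟨φ, N, p1, p2, ?_⟩
  intro b n i hi
  obtain ⟨z, z1, z2, z3, z4⟩ := hW3 b n i hi
  rw [p3 i o _ z z1 z2 ?_]
  · apply l2
    obtain ⟨e1, e2⟩ := hED.le z o ((word x y (fun k => N k b) n) o) (Ne.symm z1) (Ne.symm z2)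
    exact z3 _ e1 e2
  · intro z' y1 y2 hl
    obtain ⟨c, hc⟩ := l1 _ _ hl
    obtain ⟨e1, e2⟩ := hED.le z' o ((word x y (fun k => N k b) n) o) (Ne.symm y1) (Ne.symm y2)
    exact z4 z' y1 y2 _ c e1 e2 hc

end Pool.Agent.Helper64.PQ
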