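import Pool.Agent.Helper64.PQ.AsmBC2
import Pool.Agent.Helper78.BigMap.Assembly

set_option autoImplicit false

open Topology Filter Set Metric UpperHalfPlane
open scoped MatrixGroups
open Pool.Agent.Helper78.BigMap

namespace Pool.Agent.Helper64.PQ

section ext
universe v
variable {X : Type v} [TopologicalSpace X] [T2Space X] {J : ℕ → OpenPartialHomeomorph ℂ X}
  {O : Set (OpenPartialHomeomorph (Sf J) ℂ)} {k : ℕ → OpenPartialHomeomorph ℂ (Sf J)}

lemma ext_unique {F G : X ≃ₜ X} {f : Sf J ≃ₜ Sf J} (h1 : ∀ x : Sf J, F x = f x)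
    (h2 : ∀ x ∈ PP J, F x = x) (h3 : ∀ x : Sf J, G x = f x) (h4 : ∀ x ∈ PP J, G x = x) :
    F = G := by
  ext x
  by_cases hx : x ∈ PP J
  · rw [h2 x hx, h4 x hx]
  · exact (h1 ⟨x, hx⟩).trans (h3 ⟨x, hx⟩).symm

lemma mem_PP {i : ℕ} {e : ℂ} (he : e ∈ inC E3) : J i e ∈ PP J :=
  mem_iUnion.2 ⟨i, e, he, rfl⟩

lemma e1 : (-1/4 : ℂ) ∈ inC E3 := ⟨-1/4, by simp [E3], by push_cast; ring⟩
lemma e2 : (0 : ℂ) ∈ inC E3 := ⟨0, by simp [E3], by push_cast; ring⟩
lemma e3 : (1/4 : ℂ) ∈ inC E3 := ⟨1/4, by simp [E3], by push_cast; ring⟩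

/-- The extension homomorphism. -/
lemma exists_ext (hE1 : GoalE1.{v}) (hA3 : Helper78.BigMap.GoalA3.{v}) (hD : Data J)
    (hk : IsK J O k) :
    ∃ ε : PHomeo O →* (X ≃ₜ X), (∀ f, ∀ x : Sf J, ε f x = (f : Sf J ≃ₜ Sf J) x) ∧
      ∀ f, ∀ x ∈ PP J, ε f x = x := by
  choose ε h1 h2 using fun f : PHomeo O =>
    hE1 X J O k hD hk (f : Sf J ≃ₜ Sf J) (fixesEnds_of_mem hA3 f.2)
  refine ⟨MonoidHom.mk' ε ?_, h1, h2⟩
  intro f g
  apply ext_unique (h1 (f * g)) (h2 (f * g))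
  · intro x
    change ε f (ε g x) = _
    rw [h1 g x, h1 f]
    rfl
  · intro x hx
    change ε f (ε g x) = x
    rw [h2 g x hx, h2 f x hx]

/-- The extension homomorphism to the group fixing three points. -/
noncomputable def extFix (ε : PHomeo O →* (X ≃ₜ X)) (h : ∀ f, ∀ x ∈ PP J, ε f x = x) (i : ℕ) :
    PHomeo O →* Fix3 (J i 0) (J i (-1/4)) (J i (1/4)) where
  toFun f := ⟨ε f, h f _ (mem_PP e2), h f _ (mem_PP e1), h f _ (mem_PP e3)⟩
  map_one' := by
    apply Subtype.ext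
    exact map_one ε
  map_mul' f g := by
    apply Subtype.ext
    exact map_mul ε f g

end ext

lemma word_map {G H : Type*} [Monoid G] [Monoid H] (φ : G →* H) (x y : G) (N : ℕ → ℕ) (n : ℕ) :
    φ (word x y N n) = word (φ x) (φ y) N n := by
  induction n with
  | zero => rfl
  | succ n ih =>
    change φ (word x y N n * x ^ N n * y) = word (φ x) (φ y) N n * φ x ^ N n * φ y
    rw [map_mul, map_mul, map_pow, ih]

section words
variable {X : Type*} [TopologicalSpace X]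

/-- Actions through the chart. -/
lemma word_chart {J : OpenPartialHomeomorph ℂ X} {p q r : X} {tx ty : ℂ ≃ₜ ℂ}
    (hx : ∀ z ∈ ball (0 : ℂ) 2, tx z ∈ ball (0 : ℂ) 2)
    (hy : ∀ z ∈ ball (0 : ℂ) 2, ty z ∈ ball (0 : ℂ) 2)
    {a b : Fix3 p q r} (ha : ∀ z ∈ ball (0 : ℂ) 2, (a : X ≃ₜ X) (J z) = J (tx z))
    (hb : ∀ z ∈ ball (0 : ℂ) 2, (b : X ≃ₜ X) (J z) = J (ty z)) (N : ℕ → ℕ) (n : ℕ) :
    ∀ z ∈ ball (0 : ℂ) 2, (word tx ty N n) z ∈ ball (0 : ℂ) 2 ∧
      ((word a b N n : Fix3 p q r) : X ≃ₜ X) (J z) = J ((word tx ty N n) z) := by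
  have hpow : ∀ m : ℕ, ∀ z ∈ ball (0 : ℂ) 2, (tx ^ m) z ∈ ball (0 : ℂ) 2 ∧
      ((a ^ m : Fix3 p q r) : X ≃ₜ X) (J z) = J ((tx ^ m) z) := by
    intro m
    induction m with
    | zero =>
      intro z hz
      exact ⟨hz, rfl⟩
    | succ m ih =>
      intro z hz
      rw [pow_succ, pow_succ]
      obtain ⟨h1, h2⟩ := ih (tx z) (hx z hz)
      refine ⟨h1, ?_⟩
      change ((a ^ m : Fix3 p q r) : X ≃ₜ X) ((a : X ≃ₜ X) (J z)) = J ((tx ^ m) (tx z))
      rw [ha z hz, h2]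
  induction n with
  | zero =>
    intro z hz
    exact ⟨hy z hz, hb z hz⟩
  | succ n ih =>
    intro z hz
    obtain ⟨h1, h2⟩ := hpow (N n) (ty z) (hy z hz)
    obtain ⟨h3, h4⟩ := ih _ h1
    refine ⟨h3, ?_⟩
    change ((word a b N n : Fix3 p q r) : X ≃ₜ X)
      (((a ^ N n : Fix3 p q r) : X ≃ₜ X) ((b : X ≃ₜ X) (J z))) =
        J ((word tx ty N n) ((tx ^ N n) (ty z)))
    rw [hb z hz, h2, h4]

end words

universe v

theorem main_of_goals (hA : GoalA) (hBC : GoalBC.{v}) (hE1 : GoalE1.{v}) (hE2 : GoalE2.{v})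
    (hE3 : GoalE3.{v}) (hE4 : GoalE4.{v}) (hE5 : GoalE5) (hF : GoalF.{v})
    (hA3 : Helper78.BigMap.GoalA3.{v})
    {X : Type v} [TopologicalSpace X] [T2Space X] {J : ℕ → OpenPartialHomeomorph ℂ X}
    {O : Set (OpenPartialHomeomorph (Sf J) ℂ)} {k : ℕ → OpenPartialHomeomorph ℂ (Sf J)}
    (hD : Data J) (hO : IsOrientedAtlas O) (hk : IsK J O k) (u : ℕ → ℍ → X)
    (hu : ∀ i, Unif (J i (-1/4)) (J i (1/4)) (u i)) :
    ∃ (F : Type) (_ : Group F) (_ : Finite F) (Φ : PMap O →* F),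
      Function.Surjective Φ ∧ ∃ x y : F, x * y ≠ y * x := by
  obtain ⟨ε, hε1, hε2⟩ := exists_ext hE1 hA3 hD hk
  choose Y d ρ o hP hPres hIso hFix hTw using fun i => hBC X (J i) (u i) (hD.source i) (hu i)
  obtain ⟨tx, ty, htx, hty, hw⟩ := hE5
  -- basic facts about the planar twists
  have hinb : ∀ T : ℂ ≃ₜ ℂ, (∀ z, 7/10 ≤ ‖z‖ → T z = z) → ∀ z ∈ ball (0 : ℂ) 2,
      T z ∈ ball (0 : ℂ) 2 := by
    intro T hT z hz
    by_cases h : 7/10 ≤ ‖z‖
    · rw [hT z h]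
      exact hz
    · by_contra hc
      have h1 : 7/10 ≤ ‖T z‖ := by
        rw [mem_ball_zero_iff, not_lt] at hc
        linarith
      have h2 := T.injective (hT (T z) h1)
      rw [h2] at h1
      exact h h1
  have tx1 : ∀ z, 7/10 ≤ ‖z‖ → tx z = z := by
    intro z hz
    rw [htx]
    have h := iso_id (e := -1/4) 1 (far (e := -1/4) (by norm_num) hz)
    rw [iso_one] at h
    exact h
  have ty1 : ∀ z, 7/10 ≤ ‖z‖ → ty z = z := by
    intro z hz
    rw [hty]
    have h := iso_id (e := 1/4) 1 (far (e := 1/4) (by norm_num) hz)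
    rw [iso_one] at h
    exact h
  have txf : ∀ e : ℂ, ‖e - (-1/4)‖ ≤ 3/10 ∨ 2/5 ≤ ‖e - (-1/4)‖ → tx e = e := by
    intro z hz
    rw [htx]
    change tw (-1/4) (3/10) (2/5) z = z
    rw [← iso_one]
    rcases hz with hz | hz
    · rw [iso_small 1 hz]
      have : Complex.exp (2 * Real.pi * Complex.I * ((1 : unitInterval) : ℝ)) = 1 := by
        rw [Set.Icc.coe_one, Complex.ofReal_one, mul_one, Complex.exp_two_pi_mul_I]
      rw [this]
      ring
    · exact iso_id 1 hz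
  have tyf : ∀ e : ℂ, ‖e - 1/4‖ ≤ 3/10 ∨ 2/5 ≤ ‖e - 1/4‖ → ty e = e := by
    intro z hz
    rw [hty]
    change tw (1/4) (3/10) (2/5) z = z
    rw [← iso_one]
    rcases hz with hz | hz
    · rw [iso_small 1 hz]
      have : Complex.exp (2 * Real.pi * Complex.I * ((1 : unitInterval) : ℝ)) = 1 := by
        rw [Set.Icc.coe_one, Complex.ofReal_one, mul_one, Complex.exp_two_pi_mul_I]
      rw [this]
      ring
    · exact iso_id 1 hz
  have m1 : (-1/4 : ℂ) ∈ ball (0 : ℂ) 2 := by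
    rw [mem_ball_zero_iff]
    norm_num
  have m2 : (1/4 : ℂ) ∈ ball (0 : ℂ) 2 := by
    rw [mem_ball_zero_iff]
    norm_num
  have m0 : (0 : ℂ) ∈ ball (0 : ℂ) 2 := by simp
  -- the twists of `X`
  have hex : ∀ (T : ℂ ≃ₜ ℂ), (∀ z, 7/10 ≤ ‖z‖ → T z = z) → T 0 = 0 → T (-1/4) = -1/4 →
      T (1/4) = 1/4 → ∀ i, ∃ a : Fix3 (J i 0) (J i (-1/4)) (J i (1/4)),
      (∀ z ∈ ball (0 : ℂ) 2, (a : X ≃ₜ X) (J i z) = J i (T z)) ∧
      ∀ x, x ∉ J i '' closedBall 0 1 → (a : X ≃ₜ X) x = x := by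
    intro T hT h0 h1 h2 i
    obtain ⟨F, F1, F2⟩ := (hE4 X (J i) (hD.source i)).1 T hT
    exact ⟨⟨F, by rw [F1 0 m0, h0], by rw [F1 _ m1, h1], by rw [F1 _ m2, h2]⟩, F1, F2⟩
  choose a ha ha' using hex tx tx1 (txf 0 (Or.inl (by norm_num)))
    (txf _ (Or.inl (by norm_num))) (txf _ (Or.inr (by norm_num)))
  choose b hb hb' using hex ty ty1 (tyf 0 (Or.inl (by norm_num)))
    (tyf _ (Or.inr (by norm_num))) (tyf _ (Or.inl (by norm_num)))
  have hT : ∀ i, Twist (d i) (o i) (ρ i (a i)) (ρ i (b i)) := by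
    intro i
    apply hTw i (a i) (b i) _ (ha' i) _ (hb' i)
    · intro z hz
      rw [ha i z hz, htx]
    · intro z hz
      rw [hb i z hz, hty]
  let s : Bool → Equiv.Perm (Fin 3) := fun c => if c then Equiv.swap 0 1 else Equiv.swap 1 2
  choose φ N hφ1 hφ2 hφ3 using fun i => hA (Y i) 1 (d i) (hP i) (o i) _ _ (hT i)
    (Equiv.Perm (Fin 3)) s (by
      intro c
      cases c <;> decide)
  let θ : ℕ → ℕ → PHomeo O → Equiv.Perm (Fin 3) := fun j i f =>
    φ j i (o j) (ρ j (extFix ε hε2 j f) (o j))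
  have hmul : ∀ (g h : PHomeo O) (j : ℕ), ∃ F : Finset ℕ, F.card ≤ 12 ∧ ∀ i < j, i ∉ F →
      θ j i (g * h) = θ j i g * θ j i h := by
    intro g h j
    obtain ⟨F, F1, F2⟩ := hφ2 j (o j) (ρ j (extFix ε hε2 j g) (o j))
      (ρ j (extFix ε hε2 j (g * h)) (o j))
    refine ⟨F, F1, fun i _ hi => ?_⟩
    change φ j i (o j) (ρ j (extFix ε hε2 j (g * h)) (o j)) = _
    rw [← F2 i hi]
    congr 1
    rw [map_mul, map_mul, Equiv.Perm.mul_apply, hφ1 j _ (hPres j _)]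
  obtain ⟨Θ, hΘ⟩ := hF (PHomeo O) (Equiv.Perm (Fin 3)) θ 12 hmul
  -- isotopic maps
  have htriv : ∀ f : PHomeo O, IsotopicToId (f : Sf J ≃ₜ Sf J) → Θ f = 1 := by
    intro f hf
    apply hΘ f 1
    intro j
    obtain ⟨F, F1, F2⟩ := hφ2 j (o j) (o j) (o j)
    refine ⟨F, F1, fun i _ hi => ?_⟩
    obtain ⟨H, H1, H2, H3⟩ := hf
    obtain ⟨G, G1, G2⟩ := hE2 X J O k hD hk H H1 H2
    have hnot : ∀ t (x : X), ∀ y ∈ PP J, G (t, x) = y ↔ x = y := by
      intro t x y hy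
      by_cases hx : x ∈ PP J
      · rw [G2 t x hx]
      · have h1 := G1 t ⟨x, hx⟩
        constructor
        · intro h
          rw [h] at h1
          exact absurd (h1 ▸ hy) (H (t, ⟨x, hx⟩)).2.2
        · rintro rfl
          exact absurd hy hx
    have h1 : ρ j (extFix ε hε2 j f) = 1 := by
      apply hIso j (extFix ε hε2 j f) G
      · intro x
        by_cases hx : x ∈ PP J
        · exact G2 0 x hx
        · rw [G1 0 ⟨x, hx⟩, H2]
      · intro x
        change G (1, x) = ε f x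
        by_cases hx : x ∈ PP J
        · rw [G2 1 x hx, hε2 f x hx]
        · rw [G1 1 ⟨x, hx⟩, H3]
          exact (hε1 f ⟨x, hx⟩).symm
      · intro t
        exact G2 t _ (mem_PP e2)
      · intro t x
        exact hnot t x _ (mem_PP e1)
      · intro t x
        exact hnot t x _ (mem_PP e3)
    change φ j i (o j) (ρ j (extFix ε hε2 j f) (o j)) = 1
    rw [h1, Equiv.Perm.one_apply]
    have := F2 i hi
    rwa [mul_eq_left] at this
  -- the two elements
  have hel : ∀ c : Bool, ∃ f : PHomeo O, Θ f = s c := by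
    intro c
    obtain ⟨f, f1, f2, f3⟩ := hE3 X J O k hD hO hk (fun j => word tx ty (fun m => N j m c) j)
      (fun j => (hw _ j).1) (fun j => (hw _ j).2.1) (fun j => (hw _ j).2.2)
    refine ⟨⟨f, Subgroup.subset_closure ⟨f2, f1⟩⟩, ?_⟩
    apply hΘ
    intro j
    refine ⟨∅, by simp, fun i hi _ => ?_⟩
    set g : PHomeo O := ⟨f, Subgroup.subset_closure ⟨f2, f1⟩⟩ with hg
    set V : Fix3 (J j 0) (J j (-1/4)) (J j (1/4)) := word (a j) (b j) (fun m => N j m c) j with hV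
    have hVc := word_chart (hinb tx tx1) (hinb ty ty1) (ha j) (hb j) (fun m => N j m c) j
    have hgJ : ∀ z ∈ ball (0 : ℂ) 2, ε g (J j z) = J j ((word tx ty (fun m => N j m c) j) z) := by
      intro z hz
      by_cases hz' : z ∈ inC E3
      · rw [hε2 g _ (mem_PP hz'), (hw (fun m => N j m c) j).2.1 z hz' z (by simp)]
      · have hs : z ∈ (k j).source := by
          rw [(hk j).2.1]
          exact ⟨hz, hz'⟩
        have hs' : (word tx ty (fun m => N j m c) j) z ∈ (k j).source := by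
          rw [(hk j).2.1]
          refine ⟨(hVc z hz).1, fun h => hz' ?_⟩
          have h2 := (hw (fun m => N j m c) j).2.1 _ h _ (by simp : ‖(word tx ty (fun m => N j m c) j) z - (word tx ty (fun m => N j m c) j) z‖ ≤ 1/25)
          have h3 := (word tx ty (fun m => N j m c) j).injective h2
          rw [h3] at h
          exact h
        have h4 := f3 j z hs
        have h5 := congrArg (fun x : Sf J => (x : X)) h4
        rw [← (hk j).2.2 z hs, hε1 g]
        rw [(hk j).2.2 _ hs'] at h5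
        exact h5
    have hfix := hFix j (V⁻¹ * extFix ε hε2 j g) (by
      intro z hz
      have hz2 : z ∈ ball (0 : ℂ) 2 := by
        rw [mem_closedBall_zero_iff] at hz
        rw [mem_ball_zero_iff]
        linarith
      change ((V : X ≃ₜ X)).symm (ε g (J j z)) = J j z
      rw [hgJ z hz2, Homeomorph.symm_apply_eq]
      exact ((hVc z hz2).2).symm)
    have h6 : ρ j (extFix ε hε2 j g) (o j) = ρ j V (o j) := by
      rw [map_mul, Equiv.Perm.mul_apply, map_inv, Equiv.Perm.inv_eq_iff_eq] at hfix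
      exact hfix
    change φ j i (o j) (ρ j (extFix ε hε2 j g) (o j)) = s c
    rw [h6, hV, word_map]
    exact hφ3 j c j i hi
  -- factor through the quotient
  have hker : Subgroup.normalClosure {f : PHomeo O | IsotopicToId (f : Sf J ≃ₜ Sf J)} ≤ Θ.ker := by
    apply Subgroup.normalClosure_le_normal
    intro f hf
    exact htriv f hf
  set Ψ : PMap O →* Equiv.Perm (Fin 3) := QuotientGroup.lift _ Θ hker with hΨ
  obtain ⟨f, hf⟩ := hel true
  obtain ⟨g, hg⟩ := hel false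
  refine ⟨Ψ.range, inferInstance, inferInstance, Ψ.rangeRestrict, Ψ.rangeRestrict_surjective,
    Ψ.rangeRestrict (QuotientGroup.mk f), Ψ.rangeRestrict (QuotientGroup.mk g), ?_⟩
  intro h1
  have h2 : Θ f * Θ g = Θ g * Θ f := congrArg Subtype.val h1
  rw [hf, hg] at h2
  revert h2
  decide

end Pool.Agent.Helper64.PQ
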