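import Pool.Agent.Helper64.PQ.Lem

set_option autoImplicit false

open Topology Filter Set Metric UpperHalfPlane
open scoped MatrixGroups
open Pool.Agent.Helper78.BigMap

namespace Pool.Agent.Helper64.PQ

/-- The cut-off factor of the twist about `e`. -/
noncomputable def cf (e : ℂ) (z : ℂ) : ℝ :=
  max 0 (min 1 ((2/5 - ‖z - e‖) / (2/5 - 3/10)))

lemma cf_eq_one {e z : ℂ} (h : ‖z - e‖ ≤ 3/10) : cf e z = 1 := by
  unfold cf
  have h1 : (1 : ℝ) ≤ (2/5 - ‖z - e‖) / (2/5 - 3/10) := by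
    rw [le_div_iff₀ (by norm_num)]
    linarith
  rw [min_eq_left h1]
  norm_num

lemma cf_eq_zero {e z : ℂ} (h : 2/5 ≤ ‖z - e‖) : cf e z = 0 := by
  unfold cf
  have h1 : (2/5 - ‖z - e‖) / (2/5 - 3/10) ≤ 0 := by
    apply div_nonpos_of_nonpos_of_nonneg <;> [linarith; norm_num]
  rw [max_eq_left ((min_le_right _ _).trans h1)]

/-- The isotopy from the identity to the twist about `e`. -/
noncomputable def iso (e : ℂ) : C(unitInterval × ℂ, ℂ) where
  toFun p := e + Complex.exp (2 * Real.pi * Complex.I * ((p.1 : ℝ) * cf e p.2 : ℝ)) * (p.2 - e)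
  continuous_toFun := by
    unfold cf
    fun_prop

lemma iso_apply (e : ℂ) (t : unitInterval) (z : ℂ) : iso e (t, z) =
    e + Complex.exp (2 * Real.pi * Complex.I * ((t : ℝ) * cf e z : ℝ)) * (z - e) := rfl

lemma iso_norm (e : ℂ) (t : unitInterval) (z : ℂ) : ‖iso e (t, z) - e‖ = ‖z - e‖ := by
  rw [iso_apply, add_sub_cancel_left, norm_mul]
  have : 2 * Real.pi * Complex.I * (((t : ℝ) * cf e z : ℝ) : ℂ)
      = ((2 * Real.pi * ((t : ℝ) * cf e z) : ℝ) : ℂ) * Complex.I := by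
    push_cast
    ring
  rw [this, Complex.norm_exp_ofReal_mul_I, one_mul]

lemma iso_id {e : ℂ} (t : unitInterval) {z : ℂ} (h : 2/5 ≤ ‖z - e‖) : iso e (t, z) = z := by
  rw [iso_apply, cf_eq_zero h]
  simp

lemma iso_zero (e z : ℂ) : iso e (0, z) = z := by
  rw [iso_apply]
  simp

lemma iso_one (e z : ℂ) : iso e (1, z) = tw e (3/10) (2/5) z := by
  rw [iso_apply]
  unfold tw cf
  simp

lemma iso_small {e : ℂ} (t : unitInterval) {z : ℂ} (h : ‖z - e‖ ≤ 3/10) : iso e (t, z) =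
    e + Complex.exp (2 * Real.pi * Complex.I * (t : ℝ)) * (z - e) := by
  rw [iso_apply, cf_eq_one h, mul_one]

lemma iso_eq_iff {e : ℂ} (t : unitInterval) {z : ℂ} : iso e (t, z) = e ↔ z = e := by
  constructor
  · intro h
    have := iso_norm e t z
    rw [h, sub_self, norm_zero] at this
    rw [← sub_eq_zero, ← norm_eq_zero, ← this]
  · rintro rfl
    have := iso_norm z t z
    rw [sub_self, norm_zero, norm_eq_zero, sub_eq_zero] at this
    exact this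

lemma iso_eq_iff' {e w : ℂ} (hw : 2/5 ≤ ‖w - e‖) (t : unitInterval) {z : ℂ} :
    iso e (t, z) = w ↔ z = w := by
  constructor
  · intro h
    have h1 := iso_norm e t z
    rw [h] at h1
    rw [h1] at hw
    rw [← h, iso_id t hw]
  · rintro rfl
    exact iso_id t hw

lemma far {e z : ℂ} (he : ‖e‖ = 1/4) (h : 7/10 ≤ ‖z‖) : 2/5 ≤ ‖z - e‖ := by
  have := norm_sub_norm_le z e
  linarith

lemma near {e z : ℂ} (he : ‖e‖ = 1/4) (h : ‖z - e‖ < 2/5) : ‖z‖ < 7/10 := by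
  by_contra hc
  have := far he (not_lt.1 hc)
  linarith

lemma iso_lt {e : ℂ} (he : ‖e‖ = 1/4) (t : unitInterval) {z : ℂ} (h : ‖z‖ < 7/10) :
    ‖iso e (t, z)‖ < 7/10 := by
  by_cases h1 : 2/5 ≤ ‖z - e‖
  · rw [iso_id t h1]
    exact h
  · apply near he
    rw [iso_norm]
    exact not_le.1 h1

section
variable {X : Type*} [TopologicalSpace X]

/-- The homotopy in `X`. -/
lemma exists_H (hE4 : ∀ Φ : C(unitInterval × ℂ, ℂ), (∀ t z, 7/10 ≤ ‖z‖ → Φ (t, z) = z) →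
      (∀ t z, ‖z‖ < 7/10 → ‖Φ (t, z)‖ < 7/10) → ∀ J : OpenPartialHomeomorph ℂ X,
      J.source = ball 0 2 → ∃ H : C(unitInterval × X, X),
      (∀ t, ∀ z ∈ ball (0 : ℂ) 2, H (t, J z) = J (Φ (t, z))) ∧
      ∀ t, ∀ x, x ∉ J '' closedBall 0 1 → H (t, x) = x)
    (J : OpenPartialHomeomorph ℂ X) (hJ : J.source = ball 0 2) (e e' : ℂ)
    (he : ‖e‖ = 1/4) (he' : ‖e'‖ = 1/4) (hee : 2/5 ≤ ‖e' - e‖) (f : X → X)
    (hf : ∀ z ∈ ball (0 : ℂ) 2, f (J z) = J (tw e (3/10) (2/5) z))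
    (hf' : ∀ x, x ∉ J '' closedBall 0 1 → f x = x) :
    ∃ H : C(unitInterval × X, X), (∀ x, H (0, x) = x) ∧ (∀ x, H (1, x) = f x) ∧
      (∀ t x, H (t, x) = J e ↔ x = J e) ∧ (∀ t x, H (t, x) = J e' ↔ x = J e') ∧
      ∀ t, H (t, J 0) =
        J (e + Complex.exp (2 * Real.pi * Complex.I * ((t : unitInterval) : ℝ)) * (-e)) := by
  obtain ⟨H, H1, H2⟩ := hE4 (iso e) (fun t z h => iso_id t (far he h))
    (fun t z h => iso_lt he t h) J hJ
  have hb : ∀ t, ∀ z ∈ ball (0 : ℂ) 2, iso e (t, z) ∈ ball (0 : ℂ) 2 := by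
    intro t z hz
    by_cases h : 7/10 ≤ ‖z‖
    · rw [iso_id t (far he h)]
      exact hz
    · have := iso_lt he t (not_le.1 h)
      rw [mem_ball_zero_iff]
      linarith
  have key : ∀ w ∈ ball (0 : ℂ) 1, (∀ t z, iso e (t, z) = w ↔ z = w) →
      ∀ t x, H (t, x) = J w ↔ x = J w := by
    intro w hw hi t x
    have hw2 : w ∈ ball (0 : ℂ) 2 := ball_subset_ball (by norm_num) hw
    by_cases hx : x ∈ J '' closedBall 0 1
    · obtain ⟨z, hz, rfl⟩ := hx
      have hz2 : z ∈ ball (0 : ℂ) 2 := by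
        rw [mem_closedBall_zero_iff] at hz
        rw [mem_ball_zero_iff]
        linarith
      rw [H1 t z hz2]
      constructor
      · intro h
        have := J.injOn (by rw [hJ]; exact hb t z hz2) (by rw [hJ]; exact hw2) h
        rw [(hi t z).1 this]
      · intro h
        have := J.injOn (by rw [hJ]; exact hz2) (by rw [hJ]; exact hw2) h
        rw [this, (hi t w).2 rfl]
    · rw [H2 t x hx]
  have en : ∀ w : ℂ, ‖w‖ = 1/4 → w ∈ ball (0 : ℂ) 1 := by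
    intro w hw
    rw [mem_ball_zero_iff, hw]
    norm_num
  refine ⟨H, ?_, ?_, key e (en e he) (fun t z => iso_eq_iff t),
    key e' (en e' he') (fun t z => iso_eq_iff' hee t), ?_⟩
  · intro x
    by_cases hx : x ∈ J '' closedBall 0 1
    · obtain ⟨z, hz, rfl⟩ := hx
      rw [H1 0 z (by
        rw [mem_closedBall_zero_iff] at hz
        rw [mem_ball_zero_iff]
        linarith), iso_zero]
    · exact H2 0 x hx
  · intro x
    by_cases hx : x ∈ J '' closedBall 0 1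
    · obtain ⟨z, hz, rfl⟩ := hx
      have hz2 : z ∈ ball (0 : ℂ) 2 := by
        rw [mem_closedBall_zero_iff] at hz
        rw [mem_ball_zero_iff]
        linarith
      rw [H1 1 z hz2, iso_one, hf z hz2]
    · rw [H2 1 x hx, hf' x hx]
  · intro t
    rw [H1 t 0 (by simp), iso_small t (by rw [zero_sub, norm_neg, he]; norm_num), zero_sub]

end

/-- Everything about the twist about the puncture `J e`. -/
lemma twist_act.{v} {X : Type v} [TopologicalSpace X] [T2Space X] (h7 : GoalC7.{v})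
    (h8 : GoalC8.{v}) (h9 : GoalC9.{v}) (h4 : GoalE4.{v}) (J : OpenPartialHomeomorph ℂ X)
    (hJ : J.source = ball 0 2) {q r : X} {v : ℍ → X} (hv : NUnif q r v) (pt : ℍ)
    (hpt : v pt = J 0) (ρ : Fix3 (J 0) q r →* Equiv.Perm (Cusp (deckG v)))
    (hρ : IsAct (J 0) q r v pt ρ) (e e' : ℂ) (he : ‖e‖ = 1/4) (he' : ‖e'‖ = 1/4)
    (hee : ‖e' - e‖ = 1/2)
    (hqr : (J e = q ∧ J e' = r) ∨ (J e = r ∧ J e' = q)) (B : SL(2, ℝ)) (hB : CuspAt v B (J e)) :
    ∃ δ : deckG v,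
      (∃ a : ℝ → ℍ, ContinuousOn a (Ico 0 1) ∧ a 0 = pt ∧
        (∀ x ∈ Ico (0 : ℝ) 1, v (a x) = J (x * e)) ∧
        ∀ h : ℝ, ∃ x₀ < 1, ∀ x ∈ Ioo x₀ 1, 0 ≤ x →
          h < (((δ : SL(2, ℝ)) * B)⁻¹ • a x : ℍ).im) ∧
      ∀ f : Fix3 (J 0) q r, (∀ z ∈ ball (0 : ℂ) 2, (f : X ≃ₜ X) (J z) = J (tw e (3/10) (2/5) z)) →
        (∀ x, x ∉ J '' closedBall 0 1 → (f : X ≃ₜ X) x = x) →
        ∃ (w : deckG v) (n : ℤ), n ≠ 0 ∧
          (∀ z : ℍ, (((((δ : SL(2, ℝ)) * B)⁻¹ * w * (δ * B)) • z : ℍ) : ℂ) = z + n) ∧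
          ρ f = lm w⁻¹ := by
  have hs : J e = q ∨ J e = r := by
    rcases hqr with h | h
    · exact Or.inl h.1
    · exact Or.inr h.1
  have hb : closedBall e (1/4) ⊆ ball (0 : ℂ) 1 := by
    intro z hz
    rw [mem_closedBall, dist_eq_norm] at hz
    rw [mem_ball_zero_iff]
    have := norm_sub_norm_le z e
    linarith
  have hb2 : closedBall e (1/4) ⊆ J.source := by
    rw [hJ]
    exact hb.trans (ball_subset_ball (by norm_num))
  have hin : ∀ w ∈ ball (0 : ℂ) 2, ∀ w' ∈ ball (0 : ℂ) 2, J w = J w' → w = w' := by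
    intro w hw w' hw' h
    exact J.injOn (by rw [hJ]; exact hw) (by rw [hJ]; exact hw') h
  have hqr' : ∀ x, x ≠ J e → x ≠ J e' → x ≠ q ∧ x ≠ r := by
    intro x h1 h2
    rcases hqr with ⟨h, h'⟩ | ⟨h, h'⟩
    · exact ⟨h ▸ h1, h' ▸ h2⟩
    · exact ⟨h' ▸ h2, h ▸ h1⟩
  have he2 : e ∈ ball (0 : ℂ) 2 := by
    rw [mem_ball_zero_iff, he]
    norm_num
  have he2' : e' ∈ ball (0 : ℂ) 2 := by
    rw [mem_ball_zero_iff, he']
    norm_num
  have hav : ∀ z ∈ closedBall e (1/4), z ≠ e → J z ≠ q ∧ J z ≠ r := by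
    intro z hz hze
    have hz2 : z ∈ ball (0 : ℂ) 2 := ball_subset_ball (by norm_num) (hb hz)
    apply hqr'
    · intro h
      exact hze (hin _ hz2 _ he2 h)
    · intro h
      have := hin _ hz2 _ he2' h
      rw [this, mem_closedBall, dist_eq_norm, hee] at hz
      norm_num at hz
  have hpt' : v pt = J (e + -e) := by
    rw [hpt, add_neg_cancel]
  have he0 : -e ≠ 0 := by
    intro h
    rw [neg_eq_zero] at h
    rw [h, norm_zero] at he
    norm_num at he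
  obtain ⟨δ, a, a1, a2, a3, a4⟩ := h8 X q r v hv (J e) B J e (-e) (1/4) pt hs hB hb2 rfl he0
    (by rw [norm_neg, he]) hav hpt'
  refine ⟨δ, ⟨a, a1, a2, ?_, a4⟩, ?_⟩
  · intro x hx
    rw [a3 x hx]
    congr 1
    push_cast
    ring
  intro f hf hf'
  obtain ⟨H, H1, H2, H3, H4, H5⟩ := exists_H (fun Φ h1 h2 J hJ => (h4 X J hJ).2 Φ h1 h2) J hJ e e'
    he he' (by rw [hee]; norm_num) (f : X ≃ₜ X) hf hf'
  have H3' : ∀ t x, H (t, x) = q ↔ x = q := by
    rcases hqr with ⟨h, h'⟩ | ⟨h, h'⟩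
    · rw [← h]
      exact H3
    · rw [← h']
      exact H4
  have H4' : ∀ t x, H (t, x) = r ↔ x = r := by
    rcases hqr with ⟨h, h'⟩ | ⟨h, h'⟩
    · rw [← h']
      exact H4
    · rw [← h]
      exact H3
  have hp : J 0 ≠ q ∧ J 0 ≠ r := by
    have := hav (e + -e) (by simp [mem_closedBall, dist_eq_norm, he]) (by
      intro h
      rw [add_eq_left] at h
      exact he0 h)
    rwa [add_neg_cancel] at this
  obtain ⟨c, c1, c2⟩ := hv.exists_lift (H.comp ⟨fun t => (t, J 0), by fun_prop⟩) (by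
      intro t
      rw [mem_compl_iff, mem_insert_iff, mem_singleton_iff, not_or]
      exact ⟨fun h => hp.1 ((H3' t _).1 h), fun h => hp.2 ((H4' t _).1 h)⟩) pt (by
      change v pt = H (0, J 0)
      rw [H1, hpt])
  have c3 : ∀ t : unitInterval,
      v (c t) = J (e + Complex.exp (2 * Real.pi * Complex.I * (t : ℝ)) * (-e)) := by
    intro t
    rw [c2 t, ← H5 t]
    rfl
  obtain ⟨w, n, n0, w1, w2⟩ := h9 X q r v hv (J e) B J e (-e) (1/4) pt hs hB hb2 rfl he0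
    (by rw [norm_neg, he]) hav hpt' δ a a1 a2 a3 a4 c c1 c3
  refine ⟨w, n, n0, w2, ?_⟩
  ext x
  obtain ⟨α, rfl⟩ := ind_mkC x
  rw [h7 X (J 0) q r v hv pt ρ hpt hρ f H H1 H2 H3' H4' c c1 c2 w w1 α, lm_mkC]

end Pool.Agent.Helper64.PQ
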