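import Pool.Agent.Helper64.PQ.AsmBC

set_option autoImplicit false

open Topology Filter Set Metric UpperHalfPlane
open scoped MatrixGroups
open Pool.Agent.Helper78.BigMap

namespace Pool.Agent.Helper64.PQ

lemma coe_sm (g : SL(2, ℝ)) (z : ℍ) :
    ((g • z : ℍ) : ℂ) = (g 0 0 * z + g 0 1) / (g 1 0 * z + g 1 1) := by
  simpa using coe_specialLinearGroup_apply g z

lemma den_ne (g : SL(2, ℝ)) (z : ℍ) : (g 1 0 * z + g 1 1 : ℂ) ≠ 0 := by
  intro h
  have h1 := congrArg Complex.im h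
  have h2 := congrArg Complex.re h
  simp at h1 h2
  have hd := g.det_coe
  rw [Matrix.det_fin_two] at hd
  rcases h1 with h1 | h1
  · rw [h1] at h2 hd
    simp at h2
    rw [h2] at hd
    simp at hd
  · exact z.im_pos.ne' h1

lemma trans_entries {g : SL(2, ℝ)} {n : ℤ} (h : ∀ z : ℍ, ((g • z : ℍ) : ℂ) = z + n) :
    g 1 0 = 0 ∧ g 1 1 = g 0 0 ∧ g 0 1 = n * g 0 0 ∧ g 0 0 ≠ 0 := by
  have key : ∀ y : ℝ, 0 < y → -(y ^ 2) * g 1 0 + (n * g 1 1 - g 0 1) = 0 ∧
      y * (g 1 1 + n * g 1 0 - g 0 0) = 0 := by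
    intro y hy
    have h1 := h ⟨⟨0, y⟩, hy⟩
    rw [coe_sm, div_eq_iff (den_ne g _)] at h1
    have h2 := congrArg Complex.re h1
    have h3 := congrArg Complex.im h1
    simp at h2 h3
    constructor
    · linear_combination (-1) * h2
    · linear_combination (-1) * h3
  obtain ⟨k1, k2⟩ := key 1 one_pos
  obtain ⟨k3, k4⟩ := key 2 two_pos
  have c0 : g 1 0 = 0 := by linarith
  rw [c0] at k1 k2
  have e1 : g 1 1 = g 0 0 := by linarith
  refine ⟨c0, e1, ?_, ?_⟩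
  · rw [← e1]
    linarith
  · intro h0
    have hd := g.det_coe
    rw [Matrix.det_fin_two, c0, h0] at hd
    simp at hd

/-- Lower left entry of a conjugate of a translation. -/
lemma conj_entry {M P : SL(2, ℝ)} {n : ℤ} (h : ∀ z : ℍ, ((P • z : ℍ) : ℂ) = z + n) :
    (M⁻¹ * P * M) 1 0 = -(n * P 0 0) * (M 1 0) ^ 2 := by
  obtain ⟨h1, h2, h3, -⟩ := trans_entries h
  rw [mul_assoc, Matrix.SpecialLinearGroup.coe_mul, Matrix.mul_apply, Fin.sum_univ_two,
    Matrix.SpecialLinearGroup.coe_mul, Matrix.mul_apply, Matrix.mul_apply, Fin.sum_univ_two,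
    Fin.sum_univ_two, Matrix.SpecialLinearGroup.coe_inv, Matrix.adjugate_fin_two]
  simp
  rw [h1, h2, h3]
  ring

lemma nebot : (comap UpperHalfPlane.im atTop : Filter ℍ).NeBot := by
  rw [comap_neBot_iff]
  intro t ht
  obtain ⟨a, ha⟩ := mem_atTop_sets.1 ht
  refine ⟨⟨⟨0, max a 1⟩, lt_of_lt_of_le one_pos (le_max_right _ _)⟩, ha _ ?_⟩
  exact le_max_left _ _

/-- The cusps over `q` and `r` are different. -/
lemma cusp_ne {X : Type*} [TopologicalSpace X] [T2Space X] {q r : X} {v : ℍ → X}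
    (hv : NUnif q r v) {B : SL(2, ℝ)} (hB : CuspAt v B r) (δ δ' : deckG v) :
    (((δ' : SL(2, ℝ)) * B)⁻¹ * δ) 1 0 ≠ 0 := by
  intro h0
  set M : SL(2, ℝ) := ((δ' : SL(2, ℝ)) * B)⁻¹ * δ with hM
  have hd := M.det_coe
  rw [Matrix.det_fin_two, h0] at hd
  have ha : M 0 0 ≠ 0 := by
    intro h
    rw [h] at hd
    simp at hd
  have him : ∀ z : ℍ, (M • z).im = (M 0 0) ^ 2 * z.im := by
    intro z
    have h1 := coe_sm M z
    rw [h0] at h1
    have h11 : M 1 1 = (M 0 0)⁻¹ := by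
      rw [mul_zero, sub_zero] at hd
      field_simp
      linarith
    have h2 : ((M • z : ℍ) : ℂ) = ((M 0 0) ^ 2 : ℝ) * z + ((M 0 0 * M 0 1 : ℝ) : ℂ) := by
      rw [h1, h11]
      have : (M 0 0 : ℂ) ≠ 0 := by exact_mod_cast ha
      push_cast
      field_simp
      ring
    have h3 := congrArg Complex.im h2
    rw [Complex.add_im, Complex.im_ofReal_mul, Complex.ofReal_im, add_zero] at h3
    exact h3
  have t1 : Tendsto v (comap UpperHalfPlane.im atTop) (𝓝 q) :=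
    (le_of_eq hv.lim).trans nhdsWithin_le_nhds
  have t2 : Tendsto (fun z : ℍ => v (B • z)) (comap UpperHalfPlane.im atTop) (𝓝 r) :=
    (le_of_eq hB.lim).trans nhdsWithin_le_nhds
  have t3 : Tendsto (fun z : ℍ => M • z) (comap UpperHalfPlane.im atTop)
      (comap UpperHalfPlane.im atTop) := by
    rw [tendsto_comap_iff]
    have : (UpperHalfPlane.im ∘ fun z : ℍ => M • z) = fun z => (M 0 0) ^ 2 * z.im := by
      funext z
      exact him z
    rw [this]
    exact Tendsto.const_mul_atTop (by positivity) tendsto_comap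
  have t4 := t2.comp t3
  have e : (fun z : ℍ => v (B • z)) ∘ (fun z : ℍ => M • z) = v := by
    funext z
    change v (B • M • z) = v z
    rw [hM, ← mul_smul]
    have : B * (((δ' : SL(2, ℝ)) * B)⁻¹ * δ) = (δ' : SL(2, ℝ))⁻¹ * δ := by group
    rw [this, mul_smul]
    exact ((deckG v).inv_mem δ'.2 _).trans (δ.2 z)
  rw [e] at t4
  have := nebot
  exact hv.ne (tendsto_nhds_unique t1 t4)

lemma homeo_fix_iff {X : Type*} [TopologicalSpace X] (f : X ≃ₜ X) {q : X} (h : f q = q) (x : X) :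
    f x = q ↔ x = q := by
  constructor
  · intro hx
    rw [← h] at hx
    exact f.injective hx
  · rintro rfl
    exact h

theorem goalBC.{v} (h0 : GoalC0.{v}) (h6 : GoalC6.{v}) (h7 : GoalC7.{v}) (h8 : GoalC8.{v})
    (h9 : GoalC9.{v}) (hB2 : GoalB2) (hB3 : GoalB3) (hC3 : GoalC3.{v}) (hC4 : GoalC4.{v})
    (hE4 : GoalE4.{v}) : GoalBC.{v} := by
  intro X _ _ J u hJ hu
  have hin : ∀ w ∈ ball (0 : ℂ) 2, ∀ w' ∈ ball (0 : ℂ) 2, J w = J w' → w = w' := by
    intro w hw w' hw' h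
    exact J.injOn (by rw [hJ]; exact hw) (by rw [hJ]; exact hw') h
  have m1 : (-1/4 : ℂ) ∈ ball (0 : ℂ) 2 := by
    rw [mem_ball_zero_iff]
    norm_num
  have m2 : (1/4 : ℂ) ∈ ball (0 : ℂ) 2 := by
    rw [mem_ball_zero_iff]
    norm_num
  have m0 : (0 : ℂ) ∈ ball (0 : ℂ) 2 := by simp
  have hqr : J (-1/4) ≠ J (1/4) := by
    intro h
    have := hin _ m1 _ m2 h
    norm_num at this
  have hpq : J 0 ≠ J (-1/4) := by
    intro h
    have := hin _ m0 _ m1 h
    norm_num at this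
  have hpr : J 0 ≠ J (1/4) := by
    intro h
    have := hin _ m0 _ m2 h
    norm_num at this
  obtain ⟨A, hA⟩ := hu.cuspq
  obtain ⟨v, hvdef⟩ : ∃ v : ℍ → X, v = fun z => u (A • z) := ⟨_, rfl⟩
  have hv : NUnif (J (-1/4)) (J (1/4)) v := by
    rw [hvdef]
    exact nunif_of_unif hu hqr hA
  obtain ⟨pt, hpt⟩ : ∃ pt, v pt = J 0 := by
    have : J 0 ∈ Set.range v := by
      rw [hv.range, mem_compl_iff, mem_insert_iff, mem_singleton_iff, not_or]
      exact ⟨hpq, hpr⟩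
    exact this
  obtain ⟨ρ, hρ⟩ := h6 X (J 0) (J (-1/4)) (J (1/4)) v hv pt hpt
  have hF := h0 X _ _ v hv
  have n1 : ‖(-1/4 : ℂ)‖ = 1/4 := by norm_num
  have n2 : ‖(1/4 : ℂ)‖ = 1/4 := by norm_num
  have hBq : CuspAt v 1 (J (-1/4)) := by
    refine ⟨?_, ?_⟩
    · simp only [one_smul]
      exact hv.lim
    · intro z w hz hw
      rw [one_smul, one_smul]
      exact hv.par z w hz hw
  obtain ⟨B, hB⟩ := hv.cuspr
  obtain ⟨δ, ⟨a, a1, a2, a3, a4⟩, b1⟩ := twist_act h7 h8 h9 hE4 J hJ hv pt hpt ρ hρ (-1/4) (1/4)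
    n1 n2 (by norm_num) (Or.inl ⟨rfl, rfl⟩) 1 hBq
  obtain ⟨δ', -, b2⟩ := twist_act h7 h8 h9 hE4 J hJ hv pt hpt ρ hρ (1/4) (-1/4)
    n2 n1 (by norm_num) (Or.inr ⟨rfl, rfl⟩) B hB
  refine ⟨Cusp (deckG v), dd (deckG v), ρ, mkC δ, hB2 _ hF, hρ.1, ?_, ?_, ?_⟩
  · intro f H H1 H2 H3 H4 H5
    ext x
    obtain ⟨α, rfl⟩ := ind_mkC x
    rw [h7 X (J 0) _ _ v hv pt ρ hpt hρ f H H1 H2 H4 H5 (ContinuousMap.const _ pt) rfl
      (by
        intro t
        rw [H3 t]
        exact hpt) 1 (by simp) α]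
    simp
  · intro f hf
    obtain ⟨F, ⟨F1, F2⟩, -⟩ := (hC3 X _ _ v hv).1 (f : X ≃ₜ X) (f : X ≃ₜ X).continuous
      (homeo_fix_iff _ f.2.2.1)
      (homeo_fix_iff _ f.2.2.2) pt pt (by rw [hpt, f.2.1])
    obtain ⟨β, hβ, hc⟩ := hC4 X _ _ v hv (f : X ≃ₜ X) F (f : X ≃ₜ X).continuous
      (homeo_fix_iff _ f.2.2.1) F2 δ δ.2
    rw [hρ.2 f F F1 F2 δ ⟨β, hβ⟩ hc, eq_comm, mkC_eq_iff]
    have hfa : EqOn (fun x => F (a x)) a (Ico 0 1) := by
      apply hv.eqOn (s := Ico (0 : ℝ) 1) isPreconnected_Ico (F.continuous.comp_continuousOn a1) a1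
        (x₀ := 0) _ (by simp) (by
          change F (a 0) = a 0
          rw [a2, F1])
      intro x hx
      change v (F (a x)) = v (a x)
      rw [F2, a3 x hx]
      apply hf
      rw [mem_closedBall_zero_iff, norm_mul, n1, Complex.norm_real, Real.norm_of_nonneg hx.1]
      linarith [hx.2]
    obtain ⟨h, h1, h2⟩ := hc 1 le_rfl
    obtain ⟨x₀, x1, x2⟩ := a4 h
    have hx : max ((x₀ + 1) / 2) (1/2) ∈ Ioo x₀ 1 := by
      constructor
      · exact lt_of_lt_of_le (by linarith) (le_max_left _ _)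
      · exact max_lt (by linarith) (by norm_num)
    have hx0 : 0 ≤ max ((x₀ + 1) / 2) (1/2) := le_trans (by norm_num) (le_max_right _ _)
    have k1 := x2 _ hx hx0
    rw [mul_one] at k1
    set x := max ((x₀ + 1) / 2) (1/2) with hxdef
    have k2 := h2 ((δ : SL(2, ℝ))⁻¹ • a x) k1
    rw [smul_inv_smul] at k2
    have k3 : F (a x) = a x := hfa ⟨hx0, hx.2⟩
    rw [k3] at k2
    -- now `w = β⁻¹ • a x` and `w' = δ⁻¹ • a x` both have height `> 1`
    by_contra hcon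
    rcases hF.c _ ((deckG v).mul_mem ((deckG v).inv_mem δ.2) hβ) with h3 | h3
    · exact hcon h3
    · have e1 : (δ : SL(2, ℝ))⁻¹ • a x = ((δ : SL(2, ℝ))⁻¹ * β) • (β⁻¹ • a x) := by
        rw [← mul_smul, mul_assoc, mul_inv_cancel, mul_one]
      set M : SL(2, ℝ) := (δ : SL(2, ℝ))⁻¹ * β with hM
      set y : ℍ := β⁻¹ • a x with hy
      rw [e1] at k1
      have him : (M • y).im = y.im / Complex.normSq (M 1 0 * y + M 1 1) := by
        have hh := coe_sm M y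
        have hd := M.det_coe
        rw [Matrix.det_fin_two] at hd
        have h5 := congrArg Complex.im hh
        have h6 : ((M • y : ℍ) : ℂ).im = (M • y).im := rfl
        rw [h6] at h5
        rw [h5, Complex.div_im, ← sub_div]
        congr 1
        simp
        linear_combination (y.im) * hd
      have hns : (M 1 0) ^ 2 * y.im ^ 2 ≤ Complex.normSq (M 1 0 * y + M 1 1) := by
        rw [Complex.normSq_apply]
        simp
        nlinarith [sq_nonneg (M 1 0 * y.re + M 1 1)]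
      have hc2 : 1 ≤ (M 1 0) ^ 2 := by
        rw [← sq_abs]
        nlinarith
      have hy1 : 1 < y.im := k2
      have hpos : 0 < Complex.normSq (M 1 0 * y + M 1 1) := by
        apply lt_of_lt_of_le _ hns
        positivity
      have : (M • y).im < 1 := by
        rw [him, div_lt_one hpos]
        nlinarith
      linarith
  · intro f g hf hf' hg hg'
    obtain ⟨w, n, n0, w1, w2⟩ := b1 f hf hf'
    obtain ⟨w', n', n0', w1', w2'⟩ := b2 g hg hg'
    have hconj : ∀ z : ℍ, ((((δ : SL(2, ℝ))⁻¹ * ((w⁻¹ : deckG v) : SL(2, ℝ)) * δ) • z : ℍ) : ℂ)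
        = z + ((-n : ℤ) : ℂ) := by
      intro z
      have h1 := w1 ((((δ : SL(2, ℝ))⁻¹ * ((w⁻¹ : deckG v) : SL(2, ℝ)) * δ) • z))
      rw [← mul_smul] at h1
      have e : ((δ : SL(2, ℝ)) * 1)⁻¹ * w * (δ * 1) *
          ((δ : SL(2, ℝ))⁻¹ * ((w⁻¹ : deckG v) : SL(2, ℝ)) * δ) = 1 := by
        rw [Subgroup.coe_inv]
        group
      rw [e, one_smul] at h1
      rw [h1]
      push_cast
      ring
    obtain ⟨t1, t2⟩ := (hB3 _ hF).2 δ w⁻¹ (-n) (by simpa using n0) hconj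
    refine ⟨hρ.1 f, hρ.1 g, ?_, ?_, 0, (-n).natAbs, ?_, ?_⟩
    · rw [w2, t1]
    · rw [w2', lm_mkC, Ne, mkC_eq_iff]
      have e : ((((w'⁻¹ * δ : deckG v) : SL(2, ℝ)))⁻¹ * (δ : SL(2, ℝ)))
          = (((δ' : SL(2, ℝ)) * B)⁻¹ * δ)⁻¹ * (((δ' : SL(2, ℝ)) * B)⁻¹ * w' * (δ' * B)) *
            (((δ' : SL(2, ℝ)) * B)⁻¹ * δ) := by
        rw [Subgroup.coe_mul, Subgroup.coe_inv]
        group
      rw [e, conj_entry w1']
      have h1 := (trans_entries w1').2.2.2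
      have h2 := cusp_ne hv hB δ δ'
      have h3 : (n' : ℝ) ≠ 0 := by exact_mod_cast n0'
      exact mul_ne_zero (neg_ne_zero.2 (mul_ne_zero h3 h1)) (pow_ne_zero 2 h2)
    · have := Int.natAbs_pos.2 (neg_ne_zero.2 n0)
      omega
    · intro z hz m
      rw [w2, t2 z hz m]
      simp

end Pool.Agent.Helper64.PQ
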