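import Pool.Agent.Helper78.BigMap.Goals

set_option autoImplicit false

/-!
Project PQ (MP_2b9d24_gt): pure mapping class groups of surfaces with infinitely many isolated
planar ends have a finite non-abelian quotient.  Definitions.
-/

open Topology Filter Set Metric UpperHalfPlane
open scoped MatrixGroups

namespace Pool.Agent.Helper64.PQ

/-! ### Part A: abstract projections -/

section A
variable {X : Type}

/-- Coarse projection axioms: `d x y z` is the distance between the projections of `y` and `z`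
to `x` (only meaningful for `y` and `z` different from `x`). -/
structure Proj (t : ℕ) (d : X → X → X → ℕ) : Prop where
  pos : 1 ≤ t
  symm : ∀ x y z, y ≠ x → z ≠ x → d x y z = d x z y
  refl : ∀ x y, y ≠ x → d x y y ≤ t
  tri : ∀ x y z w, y ≠ x → z ≠ x → w ≠ x → d x y w ≤ d x y z + d x z w
  beh : ∀ x y z, x ≠ y → y ≠ z → x ≠ z → t < d x y z → d y x z ≤ t
  fin : ∀ y z, {x | x ≠ y ∧ x ≠ z ∧ t < d x y z}.Finite

/-- The permutation `g` preserves the projection distances. -/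
def Pres (d : X → X → X → ℕ) (g : Equiv.Perm X) : Prop :=
  ∀ x y z, y ≠ x → z ≠ x → d (g x) (g y) (g z) = d x y z

/-- Seen from `y`, one of `a`, `b` is deeply behind the other. -/
def Rel (t : ℕ) (d : X → X → X → ℕ) (y a b : X) : Prop :=
  a ≠ b ∧ (4 * t < d a y b ∨ 4 * t < d b y a)

/-- Exact version `D` of `d` together with the relation `E x y z` saying that `y` and `z` lie in
exactly the same direction as seen from `x`. -/
structure Exact (t : ℕ) (d : X → X → X → ℕ) (E : X → X → X → Prop) (D : X → X → X → ℕ) :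
    Prop where
  erefl : ∀ x y, E x y y
  esymm : ∀ x y z, E x y z → E x z y
  etrans : ∀ x y z w, E x y z → E x z w → E x y w
  dsymm : ∀ x y z, y ≠ x → z ≠ x → D x y z = D x z y
  dtri : ∀ x y z w, y ≠ x → z ≠ x → w ≠ x → D x y w ≤ D x y z + D x z w
  dcongr : ∀ x y z w, y ≠ x → z ≠ x → w ≠ x → E x y z → D x y w = D x z w
  near : ∀ x y z, y ≠ x → z ≠ x → E x y z → D x y z ≤ 2 * t
  strong : ∀ x y z, x ≠ y → y ≠ z → x ≠ z → 8 * t < D x y z → E y x z
  le : ∀ x y z, y ≠ x → z ≠ x → d x y z ≤ D x y z ∧ D x y z ≤ d x y z + 4 * t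
  inv : ∀ g : Equiv.Perm X, Pres d g → ∀ x y z, y ≠ x → z ≠ x →
    (E (g x) (g y) (g z) ↔ E x y z) ∧ D (g x) (g y) (g z) = D x y z

/-- The deep elements between `y` and `z`. -/
def HH (t : ℕ) (D : X → X → X → ℕ) (y z : X) : Set X :=
  {x | x ≠ y ∧ x ≠ z ∧ 32 * t < D x y z}

/-- The word `y * x ^ N 0 * y * x ^ N 1 * y * ... * x ^ N (n - 1) * y`. -/
def word {G : Type*} [Monoid G] (x y : G) (N : ℕ → ℕ) : ℕ → G
  | 0 => y
  | n + 1 => word x y N n * x ^ N n * y

end A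

/-! ### Part B: cusps of a Fuchsian group -/

/-- The translation `z ↦ z + 1`. -/
def T1 : SL(2, ℝ) := ⟨!![1, 1; 0, 1], by simp [Matrix.det_fin_two]⟩

/-- A subgroup of `SL(2, ℝ)` containing `z ↦ z + 1` such that the horoball `Im z > 1` is
precisely invariant. -/
structure Fuchs (Γ : Subgroup SL(2, ℝ)) : Prop where
  T : T1 ∈ Γ
  c : ∀ γ ∈ Γ, γ 1 0 = 0 ∨ 1 ≤ |γ 1 0|
  up : ∀ γ ∈ Γ, γ 1 0 = 0 → |γ 0 0| = 1 ∧ ∃ n : ℤ, γ 0 1 = n * γ 0 0

/-- The cusps: elements of `Γ` modulo right multiplication by the stabilizer of infinity. -/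
def cuspRel (Γ : Subgroup SL(2, ℝ)) : Setoid Γ where
  r a b := ((a⁻¹ * b : Γ) : SL(2, ℝ)) 1 0 = 0
  iseqv := by
    refine ⟨fun a => by simp, fun {a b} h => ?_, fun {a b c} h h' => ?_⟩
    · have e : ((b⁻¹ * a : Γ) : SL(2, ℝ)) = ((a⁻¹ * b : Γ) : SL(2, ℝ))⁻¹ := by
        rw [← Subgroup.coe_inv, mul_inv_rev, inv_inv]
      rw [e, Matrix.SpecialLinearGroup.coe_inv, Matrix.adjugate_fin_two]
      simpa using h
    · have e : ((a⁻¹ * c : Γ) : SL(2, ℝ)) =
          ((a⁻¹ * b : Γ) : SL(2, ℝ)) * ((b⁻¹ * c : Γ) : SL(2, ℝ)) := by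
        rw [← Subgroup.coe_mul]
        congr 1
        group
      rw [e, Matrix.SpecialLinearGroup.coe_mul, Matrix.mul_apply, Fin.sum_univ_two, h, h']
      simp

/-- The set of cusps. -/
def Cusp (Γ : Subgroup SL(2, ℝ)) : Type := Quotient (cuspRel Γ)

/-- The cusp `γ ∞`. -/
def mkC {Γ : Subgroup SL(2, ℝ)} (γ : Γ) : Cusp Γ := Quotient.mk (cuspRel Γ) γ

/-- Left multiplication on the cusps. -/
def lm {Γ : Subgroup SL(2, ℝ)} (γ : Γ) : Equiv.Perm (Cusp Γ) where
  toFun := Quotient.map (fun a => γ * a) (by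
    intro a b h
    change (((γ * a)⁻¹ * (γ * b) : Γ) : SL(2, ℝ)) 1 0 = 0
    have e : (γ * a)⁻¹ * (γ * b) = a⁻¹ * b := by group
    rw [e]
    exact h)
  invFun := Quotient.map (fun a => γ⁻¹ * a) (by
    intro a b h
    change (((γ⁻¹ * a)⁻¹ * (γ⁻¹ * b) : Γ) : SL(2, ℝ)) 1 0 = 0
    have e : (γ⁻¹ * a)⁻¹ * (γ⁻¹ * b) = a⁻¹ * b := by group
    rw [e]
    exact h)
  left_inv := by
    rintro ⟨a⟩
    change Quotient.mk (cuspRel Γ) (γ⁻¹ * (γ * a)) = Quotient.mk (cuspRel Γ) a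
    rw [inv_mul_cancel_left]
  right_inv := by
    rintro ⟨a⟩
    change Quotient.mk (cuspRel Γ) (γ * (γ⁻¹ * a)) = Quotient.mk (cuspRel Γ) a
    rw [mul_inv_cancel_left]

/-- The real number `g ∞` (for `g 1 0 ≠ 0`). -/
noncomputable def rr (g : SL(2, ℝ)) : ℝ := g 0 0 / g 1 0

/-- Seen from `x`, the number of horizontal unit steps between `y` and `z`. -/
noncomputable def dd (Γ : Subgroup SL(2, ℝ)) (x y z : Cusp Γ) : ℕ :=
  ⌈|rr ((Quotient.out x : Γ)⁻¹ * (Quotient.out z : Γ) : SL(2, ℝ))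
    - rr ((Quotient.out x : Γ)⁻¹ * (Quotient.out y : Γ) : SL(2, ℝ))|⌉₊

/-! ### Part C: coverings and cusps -/

section C
variable {X : Type*} [TopologicalSpace X]

/-- `A ∞` is a cusp of `u` whose points lie over `s`: the sets `u (A {Im z > h})` are a basis of
punctured neighbourhoods of `s`, and `{Im z > 1}` modulo `z ↦ z + 1` embeds. -/
structure CuspAt (u : ℍ → X) (A : SL(2, ℝ)) (s : X) : Prop where
  lim : Filter.map (fun z : ℍ => u (A • z)) (comap UpperHalfPlane.im atTop) = 𝓝[≠] s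
  par : ∀ z w : ℍ, 1 < z.im → 1 < w.im →
    (u (A • z) = u (A • w) ↔ ∃ n : ℤ, (w : ℂ) = z + n)

/-- `u` is a covering of `X` minus `q, r` by the upper half plane whose deck transformations are
Moebius transformations, `q` and `r` being cusps. -/
structure Unif (q r : X) (u : ℍ → X) : Prop where
  cov : IsCoveringMapOn u {q, r}ᶜ
  range : Set.range u = {q, r}ᶜ
  deck : ∀ z w : ℍ, u z = u w → ∃ γ : SL(2, ℝ), γ • z = w ∧ ∀ v : ℍ, u (γ • v) = u v
  cuspq : ∃ A : SL(2, ℝ), CuspAt u A q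
  cuspr : ∃ A : SL(2, ℝ), CuspAt u A r

/-- The deck group. -/
def deckG (u : ℍ → X) : Subgroup SL(2, ℝ) where
  carrier := {γ | ∀ z : ℍ, u (γ • z) = u z}
  one_mem' := by
    intro z
    simp
  mul_mem' := by
    intro a b ha hb z
    rw [mul_smul]
    exact (ha _).trans (hb z)
  inv_mem' := by
    intro a ha z
    have h := ha (a⁻¹ • z)
    rw [smul_inv_smul] at h
    exact h.symm

/-- The normalized situation: infinity itself is a cusp over `q`. -/
structure NUnif (q r : X) (u : ℍ → X) : Prop where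
  cov : IsCoveringMapOn u {q, r}ᶜ
  range : Set.range u = {q, r}ᶜ
  deck : ∀ z w : ℍ, u z = u w → ∃ γ ∈ deckG u, γ • z = w
  lim : Filter.map u (comap UpperHalfPlane.im atTop) = 𝓝[≠] q
  par : ∀ z w : ℍ, 1 < z.im → 1 < w.im → (u z = u w ↔ ∃ n : ℤ, (w : ℂ) = z + n)
  cuspr : ∃ B : SL(2, ℝ), CuspAt u B r
  ne : q ≠ r

/-- `F` maps the cusp `g ∞` to the cusp `g' ∞`: small horoballs at `g ∞` go into given horoballs
at `g' ∞`. -/
def Csp (F : ℍ → ℍ) (g g' : SL(2, ℝ)) : Prop :=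
  ∀ h' : ℝ, 1 ≤ h' → ∃ h : ℝ, 1 ≤ h ∧ ∀ z : ℍ, h < z.im → h' < (g'⁻¹ • F (g • z)).im

/-- The homeomorphisms fixing three given points. -/
def Fix3 (p q r : X) : Subgroup (X ≃ₜ X) where
  carrier := {f | f p = p ∧ f q = q ∧ f r = r}
  one_mem' := ⟨rfl, rfl, rfl⟩
  mul_mem' := by
    intro a b ha hb
    refine ⟨?_, ?_, ?_⟩
    · change a (b p) = p
      rw [hb.1, ha.1]
    · change a (b q) = q
      rw [hb.2.1, ha.2.1]
    · change a (b r) = r
      rw [hb.2.2, ha.2.2]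
  inv_mem' := by
    intro a ha
    refine ⟨?_, ?_, ?_⟩
    · change a.symm p = p
      rw [Homeomorph.symm_apply_eq, ha.1]
    · change a.symm q = q
      rw [Homeomorph.symm_apply_eq, ha.2.1]
    · change a.symm r = r
      rw [Homeomorph.symm_apply_eq, ha.2.2]

end C

/-- The twist about `-1/4` supported in the annulus `3/10 ≤ |z + 1/4| ≤ 2/5`. -/
noncomputable def twx : ℂ → ℂ := Helper78.BigMap.tw (-1/4) (3/10) (2/5)

/-- The twist about `1/4` supported in the annulus `3/10 ≤ |z - 1/4| ≤ 2/5`. -/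
noncomputable def twy : ℂ → ℂ := Helper78.BigMap.tw (1/4) (3/10) (2/5)

/-- The three marked points of the standard disc, as real numbers. -/
def E3 : Set ℝ := {-1/4, 0, 1/4}

end Pool.Agent.Helper64.PQ
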