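import Pool.Agent.Helper64.PQ.Defs

set_option autoImplicit false

/-!
Project PQ (MP_2b9d24_gt): goals (packets).
-/

open Topology Filter Set Metric UpperHalfPlane
open scoped MatrixGroups
open Pool.Agent.Helper78.BigMap

namespace Pool.Agent.Helper64.PQ

/-! ### Part A: abstract projections -/

/-- GOAL A1 (gate lemma). -/
def GoalA1 : Prop :=
  ∀ (X : Type) (t : ℕ) (d : X → X → X → ℕ), Proj t d → ∀ (y : X) (n : ℕ) (a : ℕ → X),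
    (∀ i ≤ n, a i ≠ y) → (∀ i < n, Rel t d y (a i) (a (i + 1))) →
    ∃ k ≤ n, ∀ i ≤ n, a i = a k ∨ 2 * t < d (a k) y (a i)

/-- GOAL A2 (exact distances). -/
def GoalA2 : Prop :=
  ∀ (X : Type) (t : ℕ) (d : X → X → X → ℕ), Proj t d → ∃ E D, Exact t d E D

/-- GOAL A3 (order on the deep elements between `y` and `z`). -/
def GoalA3 : Prop :=
  ∀ (X : Type) (t : ℕ) (d : X → X → X → ℕ) (E : X → X → X → Prop) (D : X → X → X → ℕ),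
    Proj t d → Exact t d E D → ∀ y z : X,
    (HH t D y z).Finite ∧ HH t D z y = HH t D y z ∧
    (∀ x ∈ HH t D y z, ∀ x' ∈ HH t D y z, x ≠ x' → (E x x' z ∨ E x' x z)) ∧
    (∀ x ∈ HH t D y z, ∀ x' ∈ HH t D y z, x ≠ x' → E x x' z → ¬ E x' x z) ∧
    (∀ x ∈ HH t D y z, ∀ x' ∈ HH t D y z, x ≠ x' → (E x x' z ↔ E x' x y)) ∧
    (∀ x ∈ HH t D y z, ∀ x' ∈ HH t D y z, ∀ x'' ∈ HH t D y z, x ≠ x' → x' ≠ x'' → x ≠ x'' →
      E x x' z → E x' x'' z → E x x'' z)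

/-- GOAL A4 (at most three elements see three different directions). -/
def GoalA4 : Prop :=
  ∀ (X : Type) (t : ℕ) (d : X → X → X → ℕ) (E : X → X → X → Prop) (D : X → X → X → ℕ),
    Proj t d → Exact t d E D → ∀ y z w : X, ∃ F : Finset X, F.card ≤ 3 ∧
    ∀ x, x ∉ F → x ≠ y → x ≠ z → x ≠ w →
      (32 * t < D x y z ∨ 32 * t < D x z w ∨ 32 * t < D x y w) →
      E x y z ∨ E x z w ∨ E x y w

/-- GOAL A5 (ordered products of labels). -/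
def GoalA5 : Prop :=
  ∀ (X : Type) (t : ℕ) (d : X → X → X → ℕ) (E : X → X → X → Prop) (D : X → X → X → ℕ),
    Proj t d → Exact t d E D → ∀ (Q : Type) [Group Q] (l : ℕ → ℕ → Q),
    (∀ i n, l i n * l i n = 1) → (∀ i n, l i n ≠ 1 → 32 * t < n) →
    (∀ i j n, l i n ≠ 1 → l j n ≠ 1 → i = j) →
    ∃ φ : ℕ → X → X → Q,
      (∀ g : Equiv.Perm X, Pres d g → ∀ i y z, φ i (g y) (g z) = φ i y z) ∧
      (∀ y z w, ∃ F : Finset ℕ, F.card ≤ 12 ∧ ∀ i ∉ F, φ i y z * φ i z w = φ i y w) ∧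
      (∀ i y z x, x ≠ y → x ≠ z →
        (∀ x', x' ≠ y → x' ≠ z → l i (D x' y z) ≠ 1 → x' = x) → φ i y z = l i (D x y z))

/-- `x` acts as a twist at its fixed point `o`, and `y` moves `o`. -/
structure Twist {X : Type} (d : X → X → X → ℕ) (o : X) (x y : Equiv.Perm X) : Prop where
  presx : Pres d x
  presy : Pres d y
  fixed : x o = o
  moved : y o ≠ o
  twist : ∃ C k : ℕ, 1 ≤ k ∧ ∀ z, z ≠ o → ∀ n : ℕ,
    k * n ≤ d o z ((x ^ n) z) + C ∧ d o z ((x ^ n) z) ≤ k * n + C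

/-- GOAL A6 (a path which turns a lot at every vertex is straight). -/
def GoalA6 : Prop :=
  ∀ (X : Type) (t : ℕ) (d : X → X → X → ℕ), Proj t d → ∀ (n K : ℕ) (a : ℕ → X),
    (∀ i, i < n → a i ≠ a (i + 1)) →
    (∀ i, i + 1 < n → 4 * t < d (a (i + 1)) (a i) (a (i + 2))) →
    (∀ i, i < n → ∀ x, x ≠ a i → x ≠ a (i + 1) → d x (a i) (a (i + 1)) ≤ K) →
    (∀ i j k, i < j → j < k → k ≤ n → a i ≠ a j ∧ a j ≠ a k ∧ a i ≠ a k) ∧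
    (∀ j, 0 < j → j < n →
      d (a j) (a 0) (a n) ≤ d (a j) (a (j - 1)) (a (j + 1)) + 2 * t ∧
      d (a j) (a (j - 1)) (a (j + 1)) ≤ d (a j) (a 0) (a n) + 2 * t) ∧
    (∀ x, (∀ j ≤ n, x ≠ a j) → d x (a 0) (a n) ≤ K + 2 * t)

/-- GOAL A7 (choice of exponents and windows). -/
def GoalA7 : Prop :=
  ∀ (X : Type) (t : ℕ) (d : X → X → X → ℕ), Proj t d → ∀ (o : X) (x y : Equiv.Perm X),
    Twist d o x y →
    ∃ (N : ℕ → Bool → ℕ) (W : ℕ → Bool → Set ℕ),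
      (∀ i b, ∀ m ∈ W i b, 32 * t < m) ∧
      (∀ i b j c m, m ∈ W i b → m ∈ W j c → i = j ∧ b = c) ∧
      ∀ b n i, i < n → ∃ z, z ≠ o ∧ z ≠ (word x y (fun k => N k b) n) o ∧
        (∀ m, d z o ((word x y (fun k => N k b) n) o) ≤ m →
          m ≤ d z o ((word x y (fun k => N k b) n) o) + 4 * t → m ∈ W i b) ∧
        ∀ z', z' ≠ o → z' ≠ (word x y (fun k => N k b) n) o → ∀ m c,
          d z' o ((word x y (fun k => N k b) n) o) ≤ m →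
          m ≤ d z' o ((word x y (fun k => N k b) n) o) + 4 * t → m ∈ W i c → z' = z

/-- The result of Part A. -/
def GoalA : Prop :=
  ∀ (X : Type) (t : ℕ) (d : X → X → X → ℕ), Proj t d → ∀ (o : X) (x y : Equiv.Perm X),
    Twist d o x y → ∀ (Q : Type) [Group Q] (s : Bool → Q), (∀ b, s b * s b = 1) →
    ∃ (φ : ℕ → X → X → Q) (N : ℕ → Bool → ℕ),
      (∀ g : Equiv.Perm X, Pres d g → ∀ i y z, φ i (g y) (g z) = φ i y z) ∧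
      (∀ y z w, ∃ F : Finset ℕ, F.card ≤ 12 ∧ ∀ i ∉ F, φ i y z * φ i z w = φ i y w) ∧
      ∀ b n i, i < n → φ i o ((word x y (fun k => N k b) n) o) = s b

/-! ### Part B: cusps of a Fuchsian group -/

/-- GOAL B1 (independence of representatives). -/
def GoalB1 : Prop :=
  ∀ Γ : Subgroup SL(2, ℝ), Fuchs Γ → ∀ a b c : Γ, mkC b ≠ mkC a → mkC c ≠ mkC a →
    dd Γ (mkC a) (mkC b) (mkC c) =
      ⌈|rr ((a : SL(2, ℝ))⁻¹ * c) - rr ((a : SL(2, ℝ))⁻¹ * b)|⌉₊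

/-- GOAL B2 (the projection axioms). -/
def GoalB2 : Prop := ∀ Γ : Subgroup SL(2, ℝ), Fuchs Γ → Proj 1 (dd Γ)

/-- GOAL B3 (left multiplications). -/
def GoalB3 : Prop :=
  ∀ Γ : Subgroup SL(2, ℝ), Fuchs Γ → (∀ γ : Γ, Pres (dd Γ) (lm γ)) ∧
    ∀ (a γ : Γ) (n : ℤ), n ≠ 0 →
      (∀ z : ℍ, ((((a : SL(2, ℝ))⁻¹ * γ * a) • z : ℍ) : ℂ) = z + n) →
      lm γ (mkC a) = mkC a ∧ ∀ x : Cusp Γ, x ≠ mkC a → ∀ m : ℕ,
        dd Γ (mkC a) x ((lm γ ^ m) x) = n.natAbs * m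

/-! ### Part C: coverings and cusps -/

/-- GOAL C0. -/
def GoalC0.{v} : Prop :=
  ∀ (X : Type v) [TopologicalSpace X] [T2Space X] (q r : X) (u : ℍ → X), NUnif q r u →
    Fuchs (deckG u)

/-- GOAL C1 (crossing curves in the closed half plane). -/
def GoalC1 : Prop :=
  ∀ (f g : ℝ → ℂ) (b a b' : ℝ), ContinuousOn f (Icc 0 1) → ContinuousOn g (Icc 0 1) →
    b < a → a < b' → f 1 = a → (∀ s ∈ Icc (0 : ℝ) 1, 0 ≤ (f s).im) →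
    (∀ s ∈ Icc (0 : ℝ) 1, 0 ≤ (g s).im) → (∀ s ∈ Icc (0 : ℝ) 1, (g s).im < (f 0).im) →
    g 0 = b → g 1 = b' → ∃ s ∈ Icc (0 : ℝ) 1, ∃ s' ∈ Icc (0 : ℝ) 1, f s = g s'

/-- GOAL C2 (betweenness of cusps is preserved). -/
def GoalC2 : Prop :=
  ∀ F : ℍ → ℍ, Continuous F → Function.Injective F → Csp F 1 1 →
    ∀ g₁ g₂ g₃ g₁' g₂' g₃' : SL(2, ℝ), g₁ 1 0 ≠ 0 → g₂ 1 0 ≠ 0 → g₃ 1 0 ≠ 0 → g₁' 1 0 ≠ 0 →
    g₂' 1 0 ≠ 0 → g₃' 1 0 ≠ 0 → Csp F g₁ g₁' → Csp F g₂ g₂' → Csp F g₃ g₃' →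
    rr g₁ < rr g₂ → (rr g₃ < rr g₁ ∨ rr g₂ < rr g₃) →
    ¬ (min (rr g₁') (rr g₂') < rr g₃' ∧ rr g₃' < max (rr g₁') (rr g₂'))

/-- GOAL C3 (lifting maps). -/
def GoalC3.{v} : Prop :=
  ∀ (X : Type v) [TopologicalSpace X] [T2Space X] (q r : X) (u : ℍ → X), NUnif q r u →
    (∀ f : X → X, Continuous f → (∀ x, f x = q ↔ x = q) → (∀ x, f x = r ↔ x = r) →
      ∀ z w : ℍ, u w = f (u z) → ∃! F : C(ℍ, ℍ), F z = w ∧ ∀ v, u (F v) = f (u v)) ∧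
    (∀ (f : X → X) (F : C(ℍ, ℍ)), (∀ v, u (F v) = f (u v)) →
      ∀ γ ∈ deckG u, ∃ γ' ∈ deckG u, ∀ v : ℍ, F (γ • v) = γ' • F v)

/-- GOAL C4 (images of cusps). -/
def GoalC4.{v} : Prop :=
  ∀ (X : Type v) [TopologicalSpace X] [T2Space X] (q r : X) (u : ℍ → X), NUnif q r u →
    ∀ (f : X → X) (F : C(ℍ, ℍ)), Continuous f → (∀ x, f x = q ↔ x = q) →
    (∀ v, u (F v) = f (u v)) → ∀ α ∈ deckG u, ∃ β ∈ deckG u, Csp F α β

/-- GOAL C5 (the permutation of the cusps defined by a homeomorphism of the half plane). -/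
def GoalC5 : Prop :=
  ∀ Γ : Subgroup SL(2, ℝ), Fuchs Γ → ∀ F : ℍ ≃ₜ ℍ,
    (∀ γ ∈ Γ, ∃ γ' ∈ Γ, ∀ v : ℍ, F (γ • v) = γ' • F v) →
    (∀ γ ∈ Γ, ∃ γ' ∈ Γ, ∀ v : ℍ, F.symm (γ • v) = γ' • F.symm v) →
    (∀ α ∈ Γ, ∃ β ∈ Γ, Csp F α β) → (∀ α ∈ Γ, ∃ β ∈ Γ, Csp F.symm α β) →
    ∃ σ : Equiv.Perm (Cusp Γ), Pres (dd Γ) σ ∧
      ∀ α β : Γ, Csp F (α : SL(2, ℝ)) β → σ (mkC α) = mkC β

/-- `ρ` is the action on the cusps given by the lifts fixing `pt`. -/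
def IsAct {X : Type*} [TopologicalSpace X] (p q r : X) (u : ℍ → X) (pt : ℍ)
    (ρ : Fix3 p q r →* Equiv.Perm (Cusp (deckG u))) : Prop :=
  (∀ f, Pres (dd (deckG u)) (ρ f)) ∧
    ∀ (f : Fix3 p q r) (F : C(ℍ, ℍ)), F pt = pt → (∀ v, u (F v) = (f : X ≃ₜ X) (u v)) →
      ∀ α β : deckG u, Csp F (α : SL(2, ℝ)) β → ρ f (mkC α) = mkC β

/-- GOAL C6 (the action of the homeomorphisms fixing `p, q, r` on the cusps). -/
def GoalC6.{v} : Prop :=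
  ∀ (X : Type v) [TopologicalSpace X] [T2Space X] (p q r : X) (u : ℍ → X), NUnif q r u →
    ∀ pt : ℍ, u pt = p → ∃ ρ, IsAct p q r u pt ρ

/-- GOAL C7 (isotopies moving `p`). -/
def GoalC7.{v} : Prop :=
  ∀ (X : Type v) [TopologicalSpace X] [T2Space X] (p q r : X) (u : ℍ → X), NUnif q r u →
    ∀ (pt : ℍ) (ρ : Fix3 p q r →* Equiv.Perm (Cusp (deckG u))), u pt = p →
    IsAct p q r u pt ρ → ∀ (f : Fix3 p q r) (H : C(unitInterval × X, X)),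
    (∀ x, H (0, x) = x) → (∀ x, H (1, x) = (f : X ≃ₜ X) x) → (∀ t x, H (t, x) = q ↔ x = q) →
    (∀ t x, H (t, x) = r ↔ x = r) → ∀ c : C(unitInterval, ℍ), c 0 = pt →
    (∀ t, u (c t) = H (t, p)) → ∀ w : deckG u, c 1 = (w : SL(2, ℝ)) • pt →
    ∀ α : deckG u, ρ f (mkC α) = mkC (w⁻¹ * α)

/-- GOAL C8 (a radial arc to a puncture lifts to an arc into a horoball). -/
def GoalC8.{v} : Prop :=
  ∀ (X : Type v) [TopologicalSpace X] [T2Space X] (q r : X) (u : ℍ → X), NUnif q r u →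
    ∀ (s : X) (B : SL(2, ℝ)) (J : OpenPartialHomeomorph ℂ X) (e ζ : ℂ) (R : ℝ) (pt : ℍ),
    (s = q ∨ s = r) → CuspAt u B s → closedBall e R ⊆ J.source → J e = s → ζ ≠ 0 → ‖ζ‖ ≤ R →
    (∀ z ∈ closedBall e R, z ≠ e → J z ≠ q ∧ J z ≠ r) → u pt = J (e + ζ) →
    ∃ (δ : deckG u) (a : ℝ → ℍ), ContinuousOn a (Ico 0 1) ∧ a 0 = pt ∧
      (∀ x ∈ Ico (0 : ℝ) 1, u (a x) = J (e + (1 - x : ℝ) * ζ)) ∧
      ∀ h : ℝ, ∃ x₀ < 1, ∀ x ∈ Ioo x₀ 1, 0 ≤ x →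
        h < (((δ : SL(2, ℝ)) * B)⁻¹ • a x : ℍ).im

/-- GOAL C9 (the loop around a puncture is a non-trivial parabolic deck transformation). -/
def GoalC9.{v} : Prop :=
  ∀ (X : Type v) [TopologicalSpace X] [T2Space X] (q r : X) (u : ℍ → X), NUnif q r u →
    ∀ (s : X) (B : SL(2, ℝ)) (J : OpenPartialHomeomorph ℂ X) (e ζ : ℂ) (R : ℝ) (pt : ℍ),
    (s = q ∨ s = r) → CuspAt u B s → closedBall e R ⊆ J.source → J e = s → ζ ≠ 0 → ‖ζ‖ ≤ R →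
    (∀ z ∈ closedBall e R, z ≠ e → J z ≠ q ∧ J z ≠ r) → u pt = J (e + ζ) →
    ∀ (δ : deckG u) (a : ℝ → ℍ), ContinuousOn a (Ico 0 1) → a 0 = pt →
      (∀ x ∈ Ico (0 : ℝ) 1, u (a x) = J (e + (1 - x : ℝ) * ζ)) →
      (∀ h : ℝ, ∃ x₀ < 1, ∀ x ∈ Ioo x₀ 1, 0 ≤ x →
        h < (((δ : SL(2, ℝ)) * B)⁻¹ • a x : ℍ).im) →
      ∀ c : C(unitInterval, ℍ), c 0 = pt →
        (∀ t : unitInterval,
          u (c t) = J (e + Complex.exp (2 * Real.pi * Complex.I * (t : ℝ)) * ζ)) →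
        ∃ (w : deckG u) (n : ℤ), n ≠ 0 ∧ c 1 = (w : SL(2, ℝ)) • pt ∧
          ∀ z : ℍ, (((((δ : SL(2, ℝ)) * B)⁻¹ * w * (δ * B)) • z : ℍ) : ℂ) = z + n

/-- The result of Parts B and C. -/
def GoalBC.{v} : Prop :=
  ∀ (X : Type v) [TopologicalSpace X] [T2Space X] (J : OpenPartialHomeomorph ℂ X) (u : ℍ → X),
    J.source = ball 0 2 → Unif (J (-1/4)) (J (1/4)) u →
    ∃ (Y : Type) (d : Y → Y → Y → ℕ)
      (ρ : Fix3 (J 0) (J (-1/4)) (J (1/4)) →* Equiv.Perm Y) (o : Y),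
      Proj 1 d ∧ (∀ f, Pres d (ρ f)) ∧
      (∀ (f : Fix3 (J 0) (J (-1/4)) (J (1/4))) (H : C(unitInterval × X, X)),
        (∀ x, H (0, x) = x) → (∀ x, H (1, x) = (f : X ≃ₜ X) x) → (∀ t, H (t, J 0) = J 0) →
        (∀ t x, H (t, x) = J (-1/4) ↔ x = J (-1/4)) →
        (∀ t x, H (t, x) = J (1/4) ↔ x = J (1/4)) → ρ f = 1) ∧
      (∀ f : Fix3 (J 0) (J (-1/4)) (J (1/4)),
        (∀ z ∈ closedBall (0 : ℂ) 1, (f : X ≃ₜ X) (J z) = J z) → ρ f o = o) ∧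
      ∀ f g : Fix3 (J 0) (J (-1/4)) (J (1/4)),
        (∀ z ∈ ball (0 : ℂ) 2, (f : X ≃ₜ X) (J z) = J (twx z)) →
        (∀ x, x ∉ J '' closedBall 0 1 → (f : X ≃ₜ X) x = x) →
        (∀ z ∈ ball (0 : ℂ) 2, (g : X ≃ₜ X) (J z) = J (twy z)) →
        (∀ x, x ∉ J '' closedBall 0 1 → (g : X ≃ₜ X) x = x) → Twist d o (ρ f) (ρ g)

/-! ### Part E: surfaces -/

section E

/-- A locally finite family of disjoint closed discs in `X`. -/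
structure Data {X : Type*} [TopologicalSpace X] (J : ℕ → OpenPartialHomeomorph ℂ X) :
    Prop where
  source : ∀ i, (J i).source = ball (0 : ℂ) 2
  disj : Pairwise fun i j => Disjoint (J i).target (J j).target
  closed : IsClosed (⋃ i, J i '' closedBall (0 : ℂ) 1)

/-- The marked points: three in each disc. -/
def PP {X : Type*} [TopologicalSpace X] (J : ℕ → OpenPartialHomeomorph ℂ X) : Set X :=
  ⋃ i, J i '' inC E3

/-- The punctured surface. -/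
abbrev Sf {X : Type*} [TopologicalSpace X] (J : ℕ → OpenPartialHomeomorph ℂ X) : Type _ :=
  {x : X // x ∉ PP J}

/-- `k i` is the restriction of `J i` to the thrice punctured disc, and its inverse is a chart
of the atlas `O`. -/
def IsK {X : Type*} [TopologicalSpace X] (J : ℕ → OpenPartialHomeomorph ℂ X)
    (O : Set (OpenPartialHomeomorph (Sf J) ℂ))
    (k : ℕ → OpenPartialHomeomorph ℂ (Sf J)) : Prop :=
  ∀ i, (k i).symm ∈ O ∧ (k i).source = ball (0 : ℂ) 2 \ inC E3 ∧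
    ∀ z ∈ (k i).source, ((k i z : Sf J) : X) = J i z

end E

/-- GOAL E1 (extension of homeomorphisms over the punctures). -/
def GoalE1.{v} : Prop :=
  ∀ (X : Type v) [TopologicalSpace X] [T2Space X] (J : ℕ → OpenPartialHomeomorph ℂ X)
    (O : Set (OpenPartialHomeomorph (Sf J) ℂ)) (k : ℕ → OpenPartialHomeomorph ℂ (Sf J)),
    Data J → IsK J O k → ∀ f : Sf J ≃ₜ Sf J, FixesEnds f →
    ∃ F : X ≃ₜ X, (∀ x : Sf J, F x = f x) ∧ ∀ x ∈ PP J, F x = x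

/-- GOAL E2 (extension of isotopies over the punctures). -/
def GoalE2.{v} : Prop :=
  ∀ (X : Type v) [TopologicalSpace X] [T2Space X] (J : ℕ → OpenPartialHomeomorph ℂ X)
    (O : Set (OpenPartialHomeomorph (Sf J) ℂ)) (k : ℕ → OpenPartialHomeomorph ℂ (Sf J)),
    Data J → IsK J O k → ∀ H : (unitInterval × Sf J) ≃ₜ (unitInterval × Sf J),
    (∀ p, (H p).1 = p.1) → (∀ x, (H (0, x)).2 = x) →
    ∃ G : C(unitInterval × X, X), (∀ t (x : Sf J), G (t, x) = (H (t, x)).2) ∧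
      ∀ t, ∀ x ∈ PP J, G (t, x) = x

/-- GOAL E3 (infinite products of homeomorphisms supported in the discs). -/
def GoalE3.{v} : Prop :=
  ∀ (X : Type v) [TopologicalSpace X] [T2Space X] (J : ℕ → OpenPartialHomeomorph ℂ X)
    (O : Set (OpenPartialHomeomorph (Sf J) ℂ)) (k : ℕ → OpenPartialHomeomorph ℂ (Sf J)),
    Data J → IsOrientedAtlas O → IsK J O k → ∀ T : ℕ → ℂ ≃ₜ ℂ,
    (∀ i z, 7/10 ≤ ‖z‖ → T i z = z) →
    (∀ i, ∀ e ∈ inC E3, ∀ z, ‖z - e‖ ≤ 1/25 → T i z = z) → (∀ i z, PosAt (T i) z) →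
    ∃ f : Sf J ≃ₜ Sf J, FixesEnds f ∧ PreservesOrientation O f ∧
      ∀ i, ∀ z ∈ (k i).source, f (k i z) = k i (T i z)

/-- GOAL E4 (planar homeomorphisms and homotopies in one disc). -/
def GoalE4.{v} : Prop :=
  ∀ (X : Type v) [TopologicalSpace X] [T2Space X] (J : OpenPartialHomeomorph ℂ X),
    J.source = ball 0 2 →
    (∀ T : ℂ ≃ₜ ℂ, (∀ z, 7/10 ≤ ‖z‖ → T z = z) → ∃ F : X ≃ₜ X,
      (∀ z ∈ ball (0 : ℂ) 2, F (J z) = J (T z)) ∧ ∀ x, x ∉ J '' closedBall 0 1 → F x = x) ∧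
    (∀ Φ : C(unitInterval × ℂ, ℂ), (∀ t z, 7/10 ≤ ‖z‖ → Φ (t, z) = z) →
      (∀ t z, ‖z‖ < 7/10 → ‖Φ (t, z)‖ < 7/10) → ∃ H : C(unitInterval × X, X),
      (∀ t, ∀ z ∈ ball (0 : ℂ) 2, H (t, J z) = J (Φ (t, z))) ∧
      ∀ t, ∀ x, x ∉ J '' closedBall 0 1 → H (t, x) = x)

/-- GOAL E5 (words in the two planar twists). -/
def GoalE5 : Prop :=
  ∃ tx ty : ℂ ≃ₜ ℂ, (∀ z, tx z = twx z) ∧ (∀ z, ty z = twy z) ∧
    ∀ (N : ℕ → ℕ) (n : ℕ), (∀ z, 7/10 ≤ ‖z‖ → (word tx ty N n) z = z) ∧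
      (∀ e ∈ inC E3, ∀ z, ‖z - e‖ ≤ 1/25 → (word tx ty N n) z = z) ∧
      ∀ z, PosAt (fun w => (word tx ty N n) w) z

/-! ### Part F: ultralimit -/

/-- GOAL F (maps which are homomorphisms up to a bounded number of exceptions). -/
def GoalF.{v} : Prop :=
  ∀ (G : Type v) [Group G] (M : Type) [Group M] [Finite M] (θ : ℕ → ℕ → G → M) (K : ℕ),
    (∀ g h j, ∃ F : Finset ℕ, F.card ≤ K ∧ ∀ i < j, i ∉ F →
      θ j i (g * h) = θ j i g * θ j i h) →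
    ∃ Θ : G →* M, ∀ g m,
      (∀ j, ∃ F : Finset ℕ, F.card ≤ K ∧ ∀ i < j, i ∉ F → θ j i g = m) → Θ g = m

end Pool.Agent.Helper64.PQ
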