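import Pool.Agent.Helper64.PQ.Goals

set_option autoImplicit false

open Topology Filter Set Metric UpperHalfPlane
open scoped MatrixGroups

namespace Pool.Agent.Helper64.PQ

section
variable {X : Type*} [TopologicalSpace X]

lemma nunif_of_unif {q r : X} {u : ℍ → X} (hu : Unif q r u) (hqr : q ≠ r)
    {A : SL(2, ℝ)} (hA : CuspAt u A q) : NUnif q r (fun z => u (A • z)) := by
  refine ⟨?_, ?_, ?_, hA.lim, hA.par, ?_, hqr⟩
  · exact hu.cov.comp_homeomorph (Homeomorph.smul A)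
  · rw [← hu.range]
    ext x
    constructor
    · rintro ⟨z, rfl⟩
      exact ⟨_, rfl⟩
    · rintro ⟨z, rfl⟩
      exact ⟨A⁻¹ • z, by simp⟩
  · intro z w h
    obtain ⟨γ, h1, h2⟩ := hu.deck _ _ h
    refine ⟨A⁻¹ * γ * A, ?_, ?_⟩
    · intro v
      change u (A • (A⁻¹ * γ * A) • v) = u (A • v)
      rw [← mul_smul, ← h2 (A • v), ← mul_smul]
      congr 2
      group
    · rw [mul_smul, mul_smul, h1, inv_smul_smul]
  · obtain ⟨B, hB⟩ := hu.cuspr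
    refine ⟨A⁻¹ * B, ?_, ?_⟩
    · have e : (fun z : ℍ => u (A • (A⁻¹ * B) • z)) = fun z => u (B • z) := by
        funext z
        rw [← mul_smul, mul_inv_cancel_left]
      rw [e]
      exact hB.lim
    · intro z w hz hw
      rw [← mul_smul, ← mul_smul, mul_inv_cancel_left]
      exact hB.par z w hz hw

lemma NUnif.mem {q r : X} {v : ℍ → X} (hv : NUnif q r v) (z : ℍ) : v z ∈ ({q, r}ᶜ : Set X) := by
  rw [← hv.range]
  exact ⟨z, rfl⟩

lemma NUnif.isCov {q r : X} {v : ℍ → X} (hv : NUnif q r v) :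
    IsCoveringMap (Set.codRestrict v {q, r}ᶜ hv.mem) := by
  have e : v ⁻¹' {q, r}ᶜ = univ := by
    ext z
    simp only [mem_preimage, mem_univ, iff_true]
    exact hv.mem z
  let g : ℍ ≃ₜ (v ⁻¹' {q, r}ᶜ : Set ℍ) :=
    (Homeomorph.Set.univ ℍ).symm.trans (Homeomorph.setCongr e.symm)
  have h := (hv.cov.isCoveringMap_restrictPreimage).comp_homeomorph g
  convert! h using 1

lemma NUnif.cont {q r : X} {v : ℍ → X} (hv : NUnif q r v) : Continuous v := by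
  have h := hv.isCov.continuous
  exact continuous_subtype_val.comp h

lemma NUnif.eqOn {q r : X} {v : ℍ → X} (hv : NUnif q r v) {A : Type*} [TopologicalSpace A]
    {s : Set A} (hs : IsPreconnected s) {g₁ g₂ : A → ℍ} (h₁ : ContinuousOn g₁ s)
    (h₂ : ContinuousOn g₂ s) (h : ∀ x ∈ s, v (g₁ x) = v (g₂ x)) {x₀ : A} (hx : x₀ ∈ s)
    (h0 : g₁ x₀ = g₂ x₀) : EqOn g₁ g₂ s := by
  refine hv.isCov.eqOn_of_comp_eqOn hs h₁ h₂ ?_ hx h0
  intro x hx'
  apply Subtype.ext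
  exact h x hx'

lemma NUnif.exists_lift {q r : X} {v : ℍ → X} (hv : NUnif q r v) (γ : C(unitInterval, X))
    (hγ : ∀ t, γ t ∈ ({q, r}ᶜ : Set X)) (z : ℍ) (hz : v z = γ 0) :
    ∃ c : C(unitInterval, ℍ), c 0 = z ∧ ∀ t, v (c t) = γ t := by
  obtain ⟨c, h1, h2⟩ := hv.isCov.exists_path_lifts
    ⟨fun t => ⟨γ t, hγ t⟩, by fun_prop⟩ z (Subtype.ext hz.symm)
  refine ⟨c, h2, fun t => ?_⟩
  exact congrArg Subtype.val (congrFun h1 t)

lemma mkC_eq_iff {Γ : Subgroup SL(2, ℝ)} (a b : Γ) :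
    mkC a = mkC b ↔ ((a : SL(2, ℝ))⁻¹ * b) 1 0 = 0 := by
  exact @Quotient.eq _ (cuspRel Γ) a b

lemma lm_mkC {Γ : Subgroup SL(2, ℝ)} (a b : Γ) : lm a (mkC b) = mkC (a * b) := rfl

lemma ind_mkC {Γ : Subgroup SL(2, ℝ)} (x : Cusp Γ) : ∃ a : Γ, x = mkC a := by
  obtain ⟨a, rfl⟩ := Quotient.exists_rep x
  exact ⟨a, rfl⟩

end

end Pool.Agent.Helper64.PQ
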