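import Pool.Agent.Helper78.BigMap.Defs

set_option autoImplicit false

/-!
Statement of the theorem on surfaces with infinitely many punctures (MP_2b9d24_gt).
The pure mapping class group `PMap O` is defined in `Pool.Agent.Helper78.BigMap.Defs`.
-/

open Topology Filter Set Metric UpperHalfPlane
open Pool.Agent.Helper78.BigMap
open scoped MatrixGroups

namespace Pool.Agent.Helper64.PQ.Stmt

section
variable {X : Type*} [TopologicalSpace X]

/-- The marked point of the disc `J` with coordinate `-1/4`. -/
noncomputable def ptq (J : OpenPartialHomeomorph ℂ X) : X := J (-1/4)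

/-- The marked point of the disc `J` with coordinate `1/4`. -/
noncomputable def ptr (J : OpenPartialHomeomorph ℂ X) : X := J (1/4)

/-- The three marked points of the standard disc, as real numbers (`inC E3` is the same set in
the complex plane). -/
def E3 : Set ℝ := {-1/4, 0, 1/4}

/-- Every `J i` embeds the open disc of radius `2` onto an open subset of `X`; these open sets
are pairwise disjoint, and the union of the images of the closed unit discs is closed. -/
structure Data (J : ℕ → OpenPartialHomeomorph ℂ X) : Prop where
  source : ∀ i, (J i).source = ball (0 : ℂ) 2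
  disj : Pairwise fun i j => Disjoint (J i).target (J j).target
  closed : IsClosed (⋃ i, J i '' closedBall (0 : ℂ) 1)

/-- The marked points: three in each disc. -/
def PP (J : ℕ → OpenPartialHomeomorph ℂ X) : Set X := ⋃ i, J i '' inC E3

/-- The surface `S`: the space `X` without the marked points. -/
abbrev Sf (J : ℕ → OpenPartialHomeomorph ℂ X) : Type _ := {x : X // x ∉ PP J}

/-- `k i` is the restriction of `J i` to the thrice punctured disc, and its inverse is a chart
of the atlas `O` of `S`. -/
def IsK (J : ℕ → OpenPartialHomeomorph ℂ X) (O : Set (OpenPartialHomeomorph (Sf J) ℂ))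
    (k : ℕ → OpenPartialHomeomorph ℂ (Sf J)) : Prop :=
  ∀ i, (k i).symm ∈ O ∧ (k i).source = ball (0 : ℂ) 2 \ inC E3 ∧
    ∀ z ∈ (k i).source, ((k i z : Sf J) : X) = J i z

/-- `s` is a cusp of `u` (in the coordinate `A`): the sets `u (A {Im z > h})` form a basis of
punctured neighbourhoods of `s`, and `u ∘ A` embeds `{Im z > 1}` modulo `z ↦ z + 1`. -/
structure CuspAt (u : ℍ → X) (A : SL(2, ℝ)) (s : X) : Prop where
  lim : Filter.map (fun z : ℍ => u (A • z)) (comap UpperHalfPlane.im atTop) = 𝓝[≠] s
  par : ∀ z w : ℍ, 1 < z.im → 1 < w.im →
    (u (A • z) = u (A • w) ↔ ∃ n : ℤ, (w : ℂ) = z + n)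

/-- `u` is a covering of `X` minus `q, r` by the upper half plane whose deck transformations are
Moebius transformations (acting transitively on the fibres), and `q` and `r` are cusps. -/
structure Unif (q r : X) (u : ℍ → X) : Prop where
  cov : IsCoveringMapOn u {q, r}ᶜ
  range : Set.range u = {q, r}ᶜ
  deck : ∀ z w : ℍ, u z = u w → ∃ γ : SL(2, ℝ), γ • z = w ∧ ∀ v : ℍ, u (γ • v) = u v
  cuspq : ∃ A : SL(2, ℝ), CuspAt u A q
  cuspr : ∃ A : SL(2, ℝ), CuspAt u A r

/-- The data describing `S = Sf J`: `X` contains a locally finite sequence of disjoint closed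
discs, `S` is `X` without three points of every disc, `O` is an oriented atlas of `S` containing
the charts of the thrice punctured discs, and `u i` uniformizes `X` without two of the three
points of the `i`-th disc. -/
structure PSurf (J : ℕ → OpenPartialHomeomorph ℂ X) (O : Set (OpenPartialHomeomorph (Sf J) ℂ))
    (k : ℕ → OpenPartialHomeomorph ℂ (Sf J)) (u : ℕ → ℍ → X) : Prop where
  data : Data J
  orient : IsOrientedAtlas O
  chart : IsK J O k
  unif : ∀ i, Unif (ptq (J i)) (ptr (J i)) (u i)

end

section
variable {S : Type*} [TopologicalSpace S]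

/-- The pure mapping class group of the surface `S` with oriented atlas `O`. -/
def PM (O : Set (OpenPartialHomeomorph S ℂ)) : Type _ := PMap O

/-- The group structure of the pure mapping class group. -/
instance (O : Set (OpenPartialHomeomorph S ℂ)) : Group (PM O) :=
  inferInstanceAs (Group (PMap O))

end

/-- The group `G` has a finite non-abelian quotient. -/
def HasFNQ (G : Type*) [Group G] : Prop :=
  ∃ (F : Type) (_ : Group F) (_ : Finite F) (Φ : G →* F),
    Function.Surjective Φ ∧ ∃ x y : F, x * y ≠ y * x

end Pool.Agent.Helper64.PQ.Stmt
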